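import Pool.Agent.Helper36.CauchyN.Point

/-! Dyadic arcs and boxes. -/

set_option autoImplicit false

open Filter Topology Metric Set Real MeasureTheory

namespace Pool.Agent.Helper36.CN

/-- dyadic arcs -/
def arc (g m : ℕ) : Set ℝ := Ico (2 * π * m / 2 ^ g) (2 * π * (m + 1) / 2 ^ g)

/-- dyadic boxes -/
def box (g m : ℕ) : Set ℂ :=
  (fun p : ℝ × ℝ => (p.1 : ℂ) * Complex.exp (p.2 * Complex.I)) ''
    (Icc (1 - (1 / 2) ^ g) (1 - (1 / 2) ^ (g + 1)) ×ˢ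
      Icc (2 * π * m / 2 ^ g) (2 * π * (m + 1) / 2 ^ g))

theorem measurableSet_arc (g m : ℕ) : MeasurableSet (arc g m) := measurableSet_Ico

theorem arc_sub {g m : ℕ} (h : m < 2 ^ g) : arc g m ⊆ Ico 0 (2 * π) := by
  intro θ hθ
  obtain ⟨h1, h2⟩ := hθ
  refine ⟨le_trans (by positivity) h1, lt_of_lt_of_le h2 ?_⟩
  rw [div_le_iff₀ (by positivity)]
  have : (m : ℝ) + 1 ≤ 2 ^ g := by exact_mod_cast h
  gcongr

theorem volume_arc (g m : ℕ) : volume (arc g m) = ENNReal.ofReal (2 * π / 2 ^ g) := by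
  rw [arc, Real.volume_Ico]
  congr 1
  ring

theorem mem_arc_iff {g m : ℕ} {θ : ℝ} (h0 : 0 ≤ θ) :
    θ ∈ arc g m ↔ ⌊2 ^ g * (θ / (2 * π))⌋₊ = m := by
  have hx : 0 ≤ 2 ^ g * (θ / (2 * π)) := by positivity
  rw [Nat.floor_eq_iff hx, arc, mem_Ico]
  have e1 : (2 * π * m / 2 ^ g ≤ θ) ↔ ((m : ℝ) ≤ 2 ^ g * (θ / (2 * π))) := by
    rw [div_le_iff₀ (by positivity), mul_div_assoc', le_div_iff₀ (by positivity)]
    constructor <;> intro h <;> linarith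
  have e2 : (θ < 2 * π * (m + 1) / 2 ^ g) ↔ (2 ^ g * (θ / (2 * π)) < (m : ℝ) + 1) := by
    rw [lt_div_iff₀ (by positivity), mul_div_assoc', div_lt_iff₀ (by positivity)]
    constructor <;> intro h <;> linarith
  rw [e1, e2]

theorem arc_ancestor {g m g' m' : ℕ} {θ : ℝ} (h0 : 0 ≤ θ) (h : θ ∈ arc g m) (h' : θ ∈ arc g' m')
    (hg : g' ≤ g) : m' = m / 2 ^ (g - g') := by
  rw [mem_arc_iff h0] at h h'
  rw [← h, ← h']
  have e1 : (2 : ℝ) ^ g' * (θ / (2 * π)) = 2 ^ g * (θ / (2 * π)) / ((2 ^ (g - g') : ℕ) : ℝ) := by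
    push_cast
    rw [eq_div_iff (by positivity)]
    calc (2 : ℝ) ^ g' * (θ / (2 * π)) * 2 ^ (g - g')
        = (2 ^ g' * 2 ^ (g - g')) * (θ / (2 * π)) := by ring
      _ = 2 ^ g * (θ / (2 * π)) := by rw [← pow_add, Nat.add_sub_cancel' hg]
  rw [e1, Nat.floor_div_natCast]

theorem arc_descend {g m g' : ℕ} {θ : ℝ} (h0 : 0 ≤ θ) (h : θ ∈ arc g m) (hg : g' ≤ g) :
    θ ∈ arc g' (m / 2 ^ (g - g')) := by
  have h1 : θ ∈ arc g' ⌊2 ^ g' * (θ / (2 * π))⌋₊ := (mem_arc_iff h0).2 rfl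
  rw [arc_ancestor h0 h h1 hg] at h1
  exact h1

theorem isCompact_box (g m : ℕ) : IsCompact (box g m) := by
  refine (isCompact_Icc.prod isCompact_Icc).image ?_
  fun_prop

theorem half_pow_le (g : ℕ) : (1 / 2 : ℝ) ^ (g + 1) ≤ (1 / 2) ^ g :=
  pow_le_pow_of_le_one (by norm_num) (by norm_num) (Nat.le_succ g)

theorem box_nonempty (g m : ℕ) : (box g m).Nonempty := by
  refine Nonempty.image _ (Nonempty.prod ?_ ?_)
  · rw [nonempty_Icc]
    linarith [half_pow_le g]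
  · rw [nonempty_Icc]
    gcongr
    linarith

theorem box_prop {g m : ℕ} {w : ℂ} (h : w ∈ box g m) :
    1 - (1 / 2) ^ g ≤ ‖w‖ ∧ ‖w‖ ≤ 1 - (1 / 2) ^ (g + 1) ∧
      ∃ θ₀ ∈ Icc (2 * π * m / 2 ^ g) (2 * π * (m + 1) / 2 ^ g),
        w = (‖w‖ : ℂ) * Complex.exp (θ₀ * Complex.I) := by
  obtain ⟨⟨ρ, θ₀⟩, ⟨hρ, hθ⟩, rfl⟩ := h
  have hρ0 : 0 ≤ ρ := by
    have : (1 / 2 : ℝ) ^ g ≤ 1 := pow_le_one₀ (by norm_num) (by norm_num)
    have := hρ.1
    linarith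
  have e1 : ‖(ρ : ℂ) * Complex.exp (θ₀ * Complex.I)‖ = ρ := by
    rw [norm_mul, Complex.norm_exp_ofReal_mul_I, mul_one, Complex.norm_real,
      Real.norm_of_nonneg hρ0]
  dsimp only
  rw [e1]
  exact ⟨hρ.1, hρ.2, θ₀, hθ, rfl⟩

theorem box_sub_ball (g m : ℕ) : box g m ⊆ ball 0 1 := by
  intro w hw
  have := (box_prop hw).2.1
  have h2 : (0 : ℝ) < (1 / 2) ^ (g + 1) := by positivity
  rw [mem_ball_zero_iff]
  linarith

/-- every radius lies in some layer -/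
theorem exists_layer {r : ℝ} (h0 : 0 ≤ r) (h1 : r < 1) :
    ∃ g : ℕ, 1 - (1 / 2) ^ g ≤ r ∧ r ≤ 1 - (1 / 2) ^ (g + 1) := by
  classical
  have hex : ∃ g : ℕ, r ≤ 1 - (1 / 2) ^ (g + 1) := by
    obtain ⟨n, hn⟩ := exists_pow_lt_of_lt_one (show (0 : ℝ) < 1 - r by linarith)
      (show (1 / 2 : ℝ) < 1 by norm_num)
    exact ⟨n, by linarith [half_pow_le n]⟩
  refine ⟨Nat.find hex, ?_, Nat.find_spec hex⟩
  rcases Nat.eq_zero_or_pos (Nat.find hex) with h | h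
  · rw [h, pow_zero]; linarith
  · obtain ⟨k, hk⟩ : ∃ k, Nat.find hex = k + 1 := ⟨Nat.find hex - 1, by omega⟩
    have := Nat.find_min hex (m := k) (by omega)
    rw [hk]
    exact (not_le.1 this).le

theorem mem_box {g m : ℕ} {r θ : ℝ} (h1 : 1 - (1 / 2) ^ g ≤ r) (h2 : r ≤ 1 - (1 / 2) ^ (g + 1))
    (hθ : θ ∈ arc g m) : (r : ℂ) * Complex.exp (θ * Complex.I) ∈ box g m :=
  ⟨(r, θ), ⟨⟨h1, h2⟩, ⟨hθ.1, hθ.2.le⟩⟩, rfl⟩

/-- lower bound for the Poisson kernel -/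
theorem kernel_lower {g m : ℕ} {w : ℂ} (hw : w ∈ box g m) {r : ℝ}
    (hr : 1 - (1 / 2) ^ (g + 2) ≤ r) (hr1 : r < 1) {θ : ℝ} (hθ : θ ∈ arc g m) :
    3 * 2 ^ g / 1024 ≤ poissonKernel 0 w (circleMap 0 r θ) := by
  obtain ⟨h1, h2, θ₀, hθ₀, hw'⟩ := box_prop hw
  set ρ := ‖w‖ with hρ
  have hx : (0 : ℝ) < (1 / 2) ^ g := by positivity
  set x : ℝ := (1 / 2) ^ g with hxdef
  have hx1 : x ≤ 1 := pow_le_one₀ (by norm_num) (by norm_num)
  have e1 : (1 / 2 : ℝ) ^ (g + 1) = x / 2 := by rw [pow_succ]; ring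
  have e2 : (1 / 2 : ℝ) ^ (g + 2) = x / 4 := by rw [pow_add]; norm_num; ring
  have e3 : (2 : ℝ) ^ g = x⁻¹ := by rw [hxdef, one_div, inv_pow, inv_inv]
  rw [e1] at h2
  rw [e2] at hr
  rw [e3]
  have hρ0 : 0 ≤ ρ := norm_nonneg _
  have hr0 : 0 < r := by linarith
  rw [poissonKernel_def]
  simp only [sub_zero, norm_circleMap_zero, abs_of_pos hr0]
  have hnum : 3 / 16 * x ≤ r ^ 2 - ρ ^ 2 := by nlinarith
  have hden : ‖circleMap 0 r θ - w‖ ≤ 8 * x := by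
    have e4 : circleMap 0 r θ - w = ((r - ρ : ℝ) : ℂ) * Complex.exp (θ * Complex.I)
        + (ρ : ℂ) * (Complex.exp (θ * Complex.I) - Complex.exp (θ₀ * Complex.I)) := by
      rw [hw', circleMap]
      push_cast
      ring
    have e5 : ‖Complex.exp (θ * Complex.I) - Complex.exp (θ₀ * Complex.I)‖ ≤ |θ - θ₀| := by
      have h3 : Complex.exp (θ * Complex.I) - Complex.exp (θ₀ * Complex.I)
          = Complex.exp (θ₀ * Complex.I) * (Complex.exp (Complex.I * ((θ - θ₀ : ℝ) : ℂ)) - 1) := by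
        rw [mul_sub, ← Complex.exp_add]
        congr 2
        · push_cast; ring
        · ring
      rw [h3, norm_mul, Complex.norm_exp_ofReal_mul_I, one_mul]
      exact Real.norm_exp_I_mul_ofReal_sub_one_le
    have e6 : |θ - θ₀| ≤ 2 * π * x := by
      have a1 : 2 * π * (m + 1) / 2 ^ g - 2 * π * m / 2 ^ g = 2 * π * x := by
        rw [hxdef, one_div, inv_pow]; ring
      rw [abs_le]
      obtain ⟨b1, b2⟩ := hθ
      obtain ⟨b3, b4⟩ := hθ₀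
      constructor <;> linarith
    rw [e4]
    refine (norm_add_le _ _).trans ?_
    rw [norm_mul, norm_mul, Complex.norm_exp_ofReal_mul_I, Complex.norm_real, Complex.norm_real,
      Real.norm_of_nonneg (by linarith), Real.norm_of_nonneg hρ0, mul_one]
    have hpi := Real.pi_lt_d2
    have h5 : ρ * ‖Complex.exp (θ * Complex.I) - Complex.exp (θ₀ * Complex.I)‖ ≤ 1 * (2 * π * x) := by
      gcongr
      · linarith
      · exact e5.trans e6
    nlinarith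
  have hden0 : 0 < ‖circleMap 0 r θ - w‖ := by
    rw [norm_pos_iff, sub_ne_zero]
    intro h
    have : ‖w‖ = r := by rw [← h, norm_circleMap_zero, abs_of_pos hr0]
    linarith
  rw [le_div_iff₀ (by positivity)]
  calc 3 * x⁻¹ / 1024 * ‖circleMap 0 r θ - w‖ ^ 2 ≤ 3 * x⁻¹ / 1024 * (8 * x) ^ 2 := by gcongr
    _ = 3 / 16 * x := by field_simp; norm_num
    _ ≤ _ := hnum

end Pool.Agent.Helper36.CN
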