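import Pool.Agent.Helper36.CauchyN.Sqrt

/-! Quotients of bounded functions have bounded characteristic; a Baire category argument. -/

set_option autoImplicit false

open Filter Topology Metric Set Real

namespace Pool.Agent.Helper36.CN

/-- lower bound for the mean of `log |h|` -/
theorem exists_log_lower {h : ℂ → ℂ} (hh : DifferentiableOn ℂ h (ball 0 1)) :
    ∃ C : ℝ, ∀ r : ℝ, 1 / 2 ≤ r → r < 1 → C ≤ circleAverage (fun z => log ‖h z‖) 0 r := by
  have han : AnalyticOnNhd ℂ h (ball 0 1) := hh.analyticOnNhd isOpen_ball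
  refine ⟨(((analyticOrderAt h 0).map (↑) : WithTop ℤ).untop₀ : ℝ) * log (1 / 2)
    + log ‖meromorphicTrailingCoeffAt h 0‖, fun r hr1 hr2 => ?_⟩
  have hr0 : 0 < r := by linarith
  have hsub : closedBall (0 : ℂ) |r| ⊆ ball 0 1 := by
    rw [abs_of_pos hr0]; exact closedBall_subset_ball hr2
  have han' : AnalyticOnNhd ℂ h (closedBall 0 |r|) := han.mono hsub
  have hJ := MeromorphicOn.circleAverage_log_norm (c := 0) hr0.ne' han'.meromorphicOn
  rw [hJ, MeromorphicOn.AnalyticOnNhd.divisor_apply han' (by simp)]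
  have hn : (0 : ℝ) ≤ (((analyticOrderAt h 0).map (↑) : WithTop ℤ).untop₀ : ℝ) := by
    have h1 := MeromorphicOn.AnalyticOnNhd.divisor_nonneg han' 0
    rw [MeromorphicOn.AnalyticOnNhd.divisor_apply han' (by simp)] at h1
    exact_mod_cast h1
  have h2 : 0 ≤ ∑ᶠ u, (MeromorphicOn.divisor h (closedBall 0 |r|) u : ℝ)
      * log (r * ‖(0 : ℂ) - u‖⁻¹) := by
    refine finsum_nonneg fun u => ?_
    by_cases hu : u ∈ closedBall (0 : ℂ) |r|
    · refine mul_nonneg ?_ ?_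
      · have h1 := MeromorphicOn.AnalyticOnNhd.divisor_nonneg han' u
        exact_mod_cast h1
      · by_cases hu0 : u = 0
        · simp [hu0]
        · apply log_nonneg
          have h3 : ‖u‖ ≤ r := by simpa [abs_of_pos hr0] using hu
          have h4 : 0 < ‖u‖ := norm_pos_iff.2 hu0
          rw [zero_sub, norm_neg, ← div_eq_mul_inv, le_div_iff₀ h4, one_mul]
          exact h3
    · rw [Function.locallyFinsuppWithin.apply_eq_zero_of_notMem _ hu]
      simp
  have h3 : (((analyticOrderAt h 0).map (↑) : WithTop ℤ).untop₀ : ℝ) * log (1 / 2)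
      ≤ (((analyticOrderAt h 0).map (↑) : WithTop ℤ).untop₀ : ℝ) * log r := by
    gcongr
  linarith

/-- Quotients of bounded analytic functions have bounded characteristic. -/
theorem char_bound {G g h : ℂ → ℂ} {B : ℝ} (hG : ContinuousOn G (ball 0 1))
    (hg : ∀ z ∈ ball (0 : ℂ) 1, ‖g z‖ ≤ B) (hh : DifferentiableOn ℂ h (ball 0 1))
    (hhB : ∀ z ∈ ball (0 : ℂ) 1, ‖h z‖ ≤ B) (hne : ∃ z ∈ ball (0 : ℂ) 1, h z ≠ 0)
    (hGh : ∀ z ∈ ball (0 : ℂ) 1, G z * h z = g z) :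
    ∃ C : ℝ, ∀ r : ℝ, 1 / 2 ≤ r → r < 1 → circleAverage (fun z => posLog ‖G z‖) 0 r ≤ C := by
  classical
  obtain ⟨C, hC⟩ := exists_log_lower hh
  have han : AnalyticOnNhd ℂ h (ball 0 1) := hh.analyticOnNhd isOpen_ball
  refine ⟨2 * posLog B - C, fun r hr1 hr2 => ?_⟩
  have hr0 : 0 < r := by linarith
  have hsub : sphere (0 : ℂ) |r| ⊆ ball 0 1 := by
    rw [abs_of_pos hr0]
    exact sphere_subset_closedBall.trans (closedBall_subset_ball hr2)
  have hcont : ContinuousOn (fun z => posLog ‖G z‖) (sphere 0 |r|) :=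
    continuous_posLog.comp_continuousOn (hG.mono hsub).norm
  have hint : CircleIntegrable (fun z => posLog ‖G z‖) 0 r := by
    rw [abs_of_pos hr0] at hcont
    exact hcont.circleIntegrable hr0.le
  let G₁ : ℂ → ℝ := fun z => if h z = 0 then 0 else posLog ‖G z‖
  obtain ⟨x, hx, hx0⟩ := hne
  have hcod : (fun z => posLog ‖G z‖) =ᶠ[codiscreteWithin (sphere 0 |r|)] G₁ := by
    have h1 : h ⁻¹' {0}ᶜ ∈ codiscreteWithin (ball (0 : ℂ) 1) :=
      han.preimage_zero_mem_codiscreteWithin hx0 hx (isConnected_ball one_pos)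
    have h2 := codiscreteWithin_mono hsub h1
    filter_upwards [h2] with z hz
    have hz' : h z ≠ 0 := hz
    simp only [G₁, if_neg hz']
  rw [circleAverage_congr_codiscreteWithin hcod hr0.ne']
  have hint₁ : CircleIntegrable G₁ 0 r := (circleIntegrable_congr_codiscreteWithin hcod).1 hint
  have hlog : CircleIntegrable (fun z => log ‖h z‖) 0 r :=
    MeromorphicOn.circleIntegrable_log_norm (han.mono hsub).meromorphicOn
  have hle : circleAverage G₁ 0 r ≤ circleAverage (fun z => 2 * posLog B - log ‖h z‖) 0 r := by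
    refine circleAverage_mono hint₁ ?_ ?_
    · exact (circleIntegrable_const _ _ _).sub hlog
    · intro z hz
      have hzb := hsub hz
      have hB : 0 ≤ B := (norm_nonneg _).trans (hg z hzb)
      simp only [G₁]
      split_ifs with h0
      · rw [h0, norm_zero, log_zero, sub_zero]
        exact mul_nonneg (by norm_num) posLog_nonneg
      · have e1 : ‖G z‖ = ‖g z‖ * ‖h z‖⁻¹ := by
          rw [← hGh z hzb, norm_mul, mul_inv_cancel_right₀ (norm_ne_zero_iff.2 h0)]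
        have e2 : posLog ‖G z‖ ≤ posLog ‖g z‖ + posLog ‖h z‖⁻¹ := by
          rw [e1]; exact posLog_mul
        have e3 : posLog ‖g z‖ ≤ posLog B := posLog_le_posLog (norm_nonneg _) (hg z hzb)
        have e4 : posLog ‖h z‖ ≤ posLog B := posLog_le_posLog (norm_nonneg _) (hhB z hzb)
        have e5 : posLog ‖h z‖ - posLog ‖h z‖⁻¹ = log ‖h z‖ := posLog_sub_posLog_inv
        linarith
  refine hle.trans ?_
  have e6 : circleAverage (fun z => 2 * posLog B - log ‖h z‖) 0 r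
      = 2 * posLog B - circleAverage (fun z => log ‖h z‖) 0 r := by
    rw [circleAverage_fun_sub (circleIntegrable_const _ _ _) hlog, circleAverage_const]
  rw [e6]
  linarith [hC r hr1 hr2]

/-- `log⁺` is 1-Lipschitz on norms -/
theorem posLog_le_add_sub {a b : ℝ} (ha : 0 ≤ a) (hb : 0 ≤ b) : posLog a ≤ posLog b + |a - b| := by
  by_cases h1 : a ≤ 1
  · have : posLog a = 0 := by
      rw [posLog_eq_zero_iff, abs_of_nonneg ha]; exact h1
    rw [this]
    have := posLog_nonneg (x := b)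
    positivity
  · rw [not_le] at h1
    have e1 : posLog a = log a := posLog_eq_log (by rw [abs_of_nonneg ha]; exact h1.le)
    by_cases h2 : a ≤ b
    · have := posLog_le_posLog ha h2
      have := abs_nonneg (a - b)
      linarith
    · rw [not_le] at h2
      rw [abs_of_pos (by linarith)]
      by_cases h3 : b ≤ 1
      · have := log_le_sub_one_of_pos (by linarith : (0 : ℝ) < a)
        have := posLog_nonneg (x := b)
        linarith
      · rw [not_le] at h3
        have e2 : posLog b = log b := posLog_eq_log (by rw [abs_of_nonneg hb]; exact h3.le)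
        rw [e1, e2]
        have h4 : log a - log b = log (a / b) := (log_div (by linarith) (by linarith)).symm
        have h5 : log (a / b) ≤ a / b - 1 := log_le_sub_one_of_pos (by positivity)
        have h6 : a / b - 1 ≤ a - b := by
          rw [div_sub_one (by linarith), div_le_iff₀ (by linarith)]
          nlinarith
        linarith

/-- distance from the image of a smaller closed disc to `Γ` -/
theorem exists_dist {Γ : Set ℂ} {φ : ℂ → ℂ} (hΓ : IsCompact Γ) (hφ : ContinuousOn φ (ball 0 1))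
    (hdisj : Disjoint (φ '' ball 0 1) Γ) {r : ℝ} (hr : r < 1) :
    ∃ δ : ℝ, 0 < δ ∧ ∀ z : ℂ, ‖z‖ ≤ r → ∀ ζ ∈ Γ, δ ≤ ‖ζ - φ z‖ := by
  rcases (closedBall (0 : ℂ) r ×ˢ Γ).eq_empty_or_nonempty with he | hne
  · refine ⟨1, one_pos, fun z hz ζ hζ => ?_⟩
    exfalso
    have : (z, ζ) ∈ closedBall (0 : ℂ) r ×ˢ Γ := ⟨by simpa using hz, hζ⟩
    rw [he] at this
    exact this
  · have hK : IsCompact (closedBall (0 : ℂ) r ×ˢ Γ) := (isCompact_closedBall _ _).prod hΓ
    have hsub : closedBall (0 : ℂ) r ⊆ ball 0 1 := closedBall_subset_ball hr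
    have hc : ContinuousOn (fun p : ℂ × ℂ => ‖p.2 - φ p.1‖) (closedBall (0 : ℂ) r ×ˢ Γ) := by
      refine ContinuousOn.norm (continuous_snd.continuousOn.sub ?_)
      exact (hφ.mono hsub).comp continuous_fst.continuousOn fun p hp => hp.1
    obtain ⟨⟨z₀, ζ₀⟩, ⟨hz₀, hζ₀⟩, hmin⟩ := hK.exists_isMinOn hne hc
    refine ⟨‖ζ₀ - φ z₀‖, ?_, ?_⟩
    · rw [norm_pos_iff, sub_ne_zero]
      intro h
      exact hdisj.notMem_of_mem_left ⟨z₀, hsub hz₀, rfl⟩ (h ▸ hζ₀)
    · intro z hz ζ hζ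
      exact hmin (show (z, ζ) ∈ closedBall (0 : ℂ) r ×ˢ Γ from ⟨by simpa using hz, hζ⟩)

section Baire

variable {Γ : Set ℂ} {φ : ℂ → ℂ} {ι : Type} (ζ : ι → ℂ)

/-- the Cauchy sum -/
noncomputable def KS (φ : ℂ → ℂ) (ζ : ι → ℂ) (c : ι → ℂ) (z : ℂ) : ℂ := ∑' j, c j / (ζ j - φ z)

theorem term_le {δ : ℝ} (hδ : 0 < δ) {z : ℂ} {c : ι → ℂ} (h : ∀ j, δ ≤ ‖ζ j - φ z‖) (j : ι) :
    ‖c j / (ζ j - φ z)‖ ≤ ‖c j‖ / δ := by
  rw [norm_div]
  exact div_le_div_of_nonneg_left (norm_nonneg _) hδ (h j)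

theorem KS_continuousOn (hΓ : IsCompact Γ) (hφ : ContinuousOn φ (ball 0 1))
    (hdisj : Disjoint (φ '' ball 0 1) Γ) (hζ : ∀ j, ζ j ∈ Γ) {c : ι → ℂ}
    (hc : Summable fun j => ‖c j‖) : ContinuousOn (KS φ ζ c) (ball 0 1) := by
  have key : ∀ r : ℝ, r < 1 → ContinuousOn (KS φ ζ c) (closedBall 0 r) := by
    intro r hr
    obtain ⟨δ, hδ, hd⟩ := exists_dist hΓ hφ hdisj hr
    refine continuousOn_tsum (u := fun j => ‖c j‖ / δ) ?_ (hc.div_const δ) ?_
    · intro j
      refine continuousOn_const.div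
        (continuousOn_const.sub (hφ.mono (closedBall_subset_ball hr))) ?_
      intro z hz h
      have := hd z (by simpa using hz) (ζ j) (hζ j)
      rw [h, norm_zero] at this
      linarith
    · intro j z hz
      exact term_le ζ hδ (fun j => hd z (by simpa using hz) (ζ j) (hζ j)) j
  intro z hz
  have hz1 : ‖z‖ < 1 := by simpa using hz
  obtain ⟨r, hr1, hr2⟩ := exists_between hz1
  have h1 := key r hr2
  have h2 : closedBall (0 : ℂ) r ∈ 𝓝 z := by
    refine mem_of_superset (isOpen_ball.mem_nhds (show z ∈ ball (0 : ℂ) r by simpa using hr1)) ?_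
    exact ball_subset_closedBall
  exact (h1.continuousAt h2).continuousWithinAt

theorem KS_circleIntegrable (hΓ : IsCompact Γ) (hφ : ContinuousOn φ (ball 0 1))
    (hdisj : Disjoint (φ '' ball 0 1) Γ) (hζ : ∀ j, ζ j ∈ Γ) {c : ι → ℂ}
    (hc : Summable fun j => ‖c j‖) {r : ℝ} (hr0 : 0 ≤ r) (hr : r < 1) :
    CircleIntegrable (fun z => posLog ‖KS φ ζ c z‖) 0 r := by
  refine ContinuousOn.circleIntegrable hr0 ?_
  exact continuous_posLog.comp_continuousOn
    (((KS_continuousOn ζ hΓ hφ hdisj hζ hc).mono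
      (sphere_subset_closedBall.trans (closedBall_subset_ball hr))).norm)

theorem KS_sub_le (hζ : ∀ j, ζ j ∈ Γ) {r δ : ℝ} (hδ : 0 < δ)
    (hd : ∀ z : ℂ, ‖z‖ ≤ r → ∀ ζ ∈ Γ, δ ≤ ‖ζ - φ z‖) {c c' : ι → ℂ}
    (hc : Summable fun j => ‖c j‖) (hc' : Summable fun j => ‖c' j‖) {z : ℂ} (hz : ‖z‖ ≤ r) :
    ‖KS φ ζ c z - KS φ ζ c' z‖ ≤ (∑' j, ‖c j - c' j‖) / δ := by
  have hs1 : Summable fun j => c j / (ζ j - φ z) :=
    Summable.of_norm_bounded (hc.div_const δ) (term_le ζ hδ fun j => hd z hz (ζ j) (hζ j))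
  have hs2 : Summable fun j => c' j / (ζ j - φ z) :=
    Summable.of_norm_bounded (hc'.div_const δ) (term_le ζ hδ fun j => hd z hz (ζ j) (hζ j))
  have hs3 : Summable fun j => ‖c j - c' j‖ :=
    Summable.of_nonneg_of_le (fun _ => norm_nonneg _) (fun j => norm_sub_le _ _) (hc.add hc')
  have e1 : KS φ ζ c z - KS φ ζ c' z = ∑' j, (c j - c' j) / (ζ j - φ z) := by
    rw [KS, KS, ← hs1.tsum_sub hs2]
    exact tsum_congr fun j => by rw [sub_div]
  rw [e1, ← tsum_div_const]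
  refine tsum_of_norm_bounded (hs3.div_const δ).hasSum ?_
  exact term_le ζ hδ fun j => hd z hz (ζ j) (hζ j)

theorem uniform_bound (hΓ : IsCompact Γ) (hφ : ContinuousOn φ (ball 0 1))
    (hdisj : Disjoint (φ '' ball 0 1) Γ) (hζ : ∀ j, ζ j ∈ Γ)
    (hN : ∀ c : ι → ℂ, (Summable fun j => ‖c j‖) → ∃ C : ℝ, ∀ r : ℝ, 1 / 2 ≤ r → r < 1 →
      circleAverage (fun z => posLog ‖KS φ ζ c z‖) 0 r ≤ C) :
    ∃ B : ℝ, ∀ c : ι → ℂ, (Summable fun j => ‖c j‖) → ∑' j, ‖c j‖ ≤ 1 → ∀ r : ℝ, 1 / 2 ≤ r →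
      r < 1 → circleAverage (fun z => posLog ‖KS φ ζ c z‖) 0 r ≤ B := by
  let X := lp (fun _ : ι => ℂ) 1
  have hsum : ∀ u : X, HasSum (fun j => ‖u j‖) ‖u‖ := by
    intro u
    have := lp.hasSum_norm (p := 1) (by simp) u
    simpa using this
  have hsumm : ∀ u : X, Summable fun j => ‖u j‖ := fun u => (hsum u).summable
  let T : ℝ → X → ℝ := fun r u => circleAverage (fun z => posLog ‖KS φ ζ (u : ι → ℂ) z‖) 0 r
  have hTc : ∀ r, 1 / 2 ≤ r → r < 1 → Continuous (T r) := by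
    intro r hr1 hr2
    obtain ⟨δ, hδ, hd⟩ := exists_dist hΓ hφ hdisj hr2
    have hr0 : 0 ≤ r := by linarith
    have hL : LipschitzWith (Real.toNNReal (1 / δ)) (T r) := by
      refine LipschitzWith.of_le_add_mul _ fun u v => ?_
      have e1 : T r v + (Real.toNNReal (1 / δ)) * dist u v
          = circleAverage (fun z => posLog ‖KS φ ζ (v : ι → ℂ) z‖ + ‖u - v‖ / δ) 0 r := by
        rw [circleAverage_fun_add (KS_circleIntegrable ζ hΓ hφ hdisj hζ (hsumm v) hr0 hr2)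
          (circleIntegrable_const _ _ _), circleAverage_const, Real.coe_toNNReal _ (by positivity),
          dist_eq_norm]
        ring
      rw [e1]
      refine circleAverage_mono (KS_circleIntegrable ζ hΓ hφ hdisj hζ (hsumm u) hr0 hr2)
        ((KS_circleIntegrable ζ hΓ hφ hdisj hζ (hsumm v) hr0 hr2).add
          (circleIntegrable_const _ _ _)) ?_
      intro z hz
      have hz' : ‖z‖ ≤ r := by
        rw [mem_sphere_zero_iff_norm, abs_of_nonneg hr0] at hz
        exact hz.le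
      have h1 := posLog_le_add_sub (norm_nonneg (KS φ ζ (u : ι → ℂ) z))
        (norm_nonneg (KS φ ζ (v : ι → ℂ) z))
      have h2 := abs_norm_sub_norm_le (KS φ ζ (u : ι → ℂ) z) (KS φ ζ (v : ι → ℂ) z)
      have h3 := KS_sub_le ζ hζ hδ hd (hsumm u) (hsumm v) hz'
      have h4 : ∑' j, ‖(u : ι → ℂ) j - (v : ι → ℂ) j‖ = ‖u - v‖ := by
        have := (hsum (u - v)).tsum_eq
        rw [← this]
        rfl
      rw [h4] at h3
      linarith
    exact hL.continuous
  let V : ℕ → Set X := fun m => {u | ∀ r, 1 / 2 ≤ r → r < 1 → T r u ≤ m}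
  have hVc : ∀ m, IsClosed (V m) := by
    intro m
    have : V m = ⋂ (r : ℝ) (_ : 1 / 2 ≤ r) (_ : r < 1), {u | T r u ≤ m} := by
      ext u; simp [V]
    rw [this]
    refine isClosed_iInter fun r => isClosed_iInter fun h1 => isClosed_iInter fun h2 => ?_
    exact isClosed_le (hTc r h1 h2) continuous_const
  have hVu : ⋃ m, V m = univ := by
    rw [eq_univ_iff_forall]
    intro u
    obtain ⟨C, hC⟩ := hN (u : ι → ℂ) (hsumm u)
    obtain ⟨m, hm⟩ := exists_nat_ge C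
    exact mem_iUnion.2 ⟨m, fun r h1 h2 => (hC r h1 h2).trans hm⟩
  obtain ⟨m, hm⟩ := nonempty_interior_of_iUnion_of_closed hVc hVu
  obtain ⟨u₀, hu₀⟩ := hm
  obtain ⟨ε, hε, hball⟩ := Metric.isOpen_iff.1 isOpen_interior u₀ hu₀
  refine ⟨2 * m + log 2 + posLog (2 / ε), fun c hc hc1 r hr1 hr2 => ?_⟩
  have hr0 : 0 ≤ r := by linarith
  have hcm : Memℓp (fun j => ((ε / 2 : ℝ) : ℂ) * c j) 1 := by
    apply memℓp_gen
    simp only [ENNReal.toReal_one, Real.rpow_one, norm_mul]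
    exact hc.mul_left _
  let u₁ : X := ⟨fun j => ((ε / 2 : ℝ) : ℂ) * c j, hcm⟩
  have hu₁ : ‖u₁‖ ≤ ε / 2 := by
    rw [← (hsum u₁).tsum_eq]
    have : ∀ j, ‖(u₁ : ι → ℂ) j‖ = (ε / 2) * ‖c j‖ := by
      intro j
      change ‖((ε / 2 : ℝ) : ℂ) * c j‖ = _
      rw [norm_mul, Complex.norm_real, Real.norm_of_nonneg (by positivity)]
    simp only [this]
    rw [tsum_mul_left]
    calc ε / 2 * ∑' j, ‖c j‖ ≤ ε / 2 * 1 := by gcongr
      _ = ε / 2 := mul_one _
  have h1 : u₀ + u₁ ∈ V m := interior_subset (hball (by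
    rw [mem_ball, dist_eq_norm, add_sub_cancel_left]
    linarith))
  have h0 : u₀ ∈ V m := interior_subset hu₀
  have i1 := KS_circleIntegrable ζ hΓ hφ hdisj hζ (hsumm (u₀ + u₁)) hr0 hr2
  have i0 := KS_circleIntegrable ζ hΓ hφ hdisj hζ (hsumm u₀) hr0 hr2
  have e0 : circleAverage (fun z => posLog ‖KS φ ζ c z‖) 0 r
      ≤ circleAverage (fun z => (posLog ‖KS φ ζ ((u₀ + u₁ : X) : ι → ℂ) z‖
        + posLog ‖KS φ ζ (u₀ : ι → ℂ) z‖) + (log 2 + posLog (2 / ε))) 0 r := by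
    refine circleAverage_mono (KS_circleIntegrable ζ hΓ hφ hdisj hζ hc hr0 hr2)
      ((i1.add i0).add (circleIntegrable_const _ _ _)) ?_
    intro z hz
    obtain ⟨δ, hδ, hd⟩ := exists_dist hΓ hφ hdisj hr2
    have hz' : ‖z‖ ≤ r := by
      rw [mem_sphere_zero_iff_norm, abs_of_nonneg hr0] at hz
      exact hz.le
    have hs : ∀ u : X, Summable fun j => (u : ι → ℂ) j / (ζ j - φ z) := fun u =>
      Summable.of_norm_bounded ((hsumm u).div_const δ)
        (term_le ζ hδ fun j => hd z hz' (ζ j) (hζ j))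
    have e1 : KS φ ζ ((u₀ + u₁ : X) : ι → ℂ) z - KS φ ζ (u₀ : ι → ℂ) z
        = ((ε / 2 : ℝ) : ℂ) * KS φ ζ c z := by
      rw [KS, KS, KS, ← (hs (u₀ + u₁)).tsum_sub (hs u₀), ← tsum_mul_left]
      refine tsum_congr fun j => ?_
      have : ((u₀ + u₁ : X) : ι → ℂ) j = (u₀ : ι → ℂ) j + ((ε / 2 : ℝ) : ℂ) * c j := rfl
      rw [this]
      ring
    have e2 : ‖KS φ ζ c z‖ = (2 / ε) * ‖KS φ ζ ((u₀ + u₁ : X) : ι → ℂ) z - KS φ ζ (u₀ : ι → ℂ) z‖ := by
      rw [e1, norm_mul, Complex.norm_real, Real.norm_of_nonneg (by positivity)]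
      field_simp
    have e3 := posLog_mul (x := 2 / ε)
      (y := ‖KS φ ζ ((u₀ + u₁ : X) : ι → ℂ) z - KS φ ζ (u₀ : ι → ℂ) z‖)
    rw [← e2] at e3
    have e4 := posLog_norm_add_le (KS φ ζ ((u₀ + u₁ : X) : ι → ℂ) z) (-KS φ ζ (u₀ : ι → ℂ) z)
    rw [norm_neg, ← sub_eq_add_neg] at e4
    linarith
  refine e0.trans ?_
  have i01 : CircleIntegrable (fun z => posLog ‖KS φ ζ ((u₀ + u₁ : X) : ι → ℂ) z‖
        + posLog ‖KS φ ζ (u₀ : ι → ℂ) z‖) 0 r := i1.add i0
  rw [circleAverage_fun_add i01 (circleIntegrable_const _ _ _), circleAverage_const,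
    circleAverage_fun_add i1 i0]
  have a1 : circleAverage (fun z => posLog ‖KS φ ζ ((u₀ + u₁ : X) : ι → ℂ) z‖) 0 r ≤ m :=
    h1 r hr1 hr2
  have a0 : circleAverage (fun z => posLog ‖KS φ ζ (u₀ : ι → ℂ) z‖) 0 r ≤ m := h0 r hr1 hr2
  linarith

end Baire

end Pool.Agent.Helper36.CN
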