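import Pool.Agent.Helper36.CauchyN.Arcs

/-! The counting estimate. -/

set_option autoImplicit false

open Filter Topology Metric Set Real MeasureTheory

namespace Pool.Agent.Helper36.CN

/-- first passage triples `(i, g, m)` -/
def Valid (D : ℕ → ℕ → ℝ) (j : ℕ × ℕ × ℕ) : Prop :=
  14 ≤ j.1 ∧ j.2.2 < 2 ^ j.2.1 ∧ 2 ^ j.1 < D j.2.1 j.2.2 ∧
    ∀ g' < j.2.1, D g' (j.2.2 / 2 ^ (j.2.1 - g')) ≤ 2 ^ j.1

theorem Valid.eq {D : ℕ → ℕ → ℝ} {j j' : ℕ × ℕ × ℕ} (h : Valid D j) (h' : Valid D j') {θ : ℝ}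
    (h0 : 0 ≤ θ) (hθ : θ ∈ arc j.2.1 j.2.2) (hθ' : θ ∈ arc j'.2.1 j'.2.2) (hi : j.1 = j'.1) :
    j = j' := by
  obtain ⟨i, g, m⟩ := j
  obtain ⟨i', g', m'⟩ := j'
  dsimp only at *
  subst hi
  obtain ⟨-, hm, hD, hmin⟩ := h
  obtain ⟨-, hm', hD', hmin'⟩ := h'
  dsimp only at *
  rcases lt_trichotomy g g' with hlt | heq | hgt
  · have h1 := arc_ancestor h0 hθ' hθ hlt.le
    have h2 := hmin' g hlt
    rw [← h1] at h2
    linarith
  · subst heq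
    have h1 := arc_ancestor h0 hθ hθ' le_rfl
    rw [Nat.sub_self, pow_zero, Nat.div_one] at h1
    rw [h1]
  · have h1 := arc_ancestor h0 hθ hθ' hgt.le
    have h2 := hmin g' hgt
    rw [← h1] at h2
    linarith

open Classical in
theorem sum_levels {D : ℕ → ℕ → ℝ} {J : Finset (ℕ × ℕ × ℕ)} (hJ : ∀ j ∈ J, Valid D j) {θ : ℝ}
    (h0 : 0 ≤ θ) (a : ℕ → ℝ) :
    ∑ j ∈ J with θ ∈ arc j.2.1 j.2.2, a j.1
      = ∑ k ∈ (J.filter fun j => θ ∈ arc j.2.1 j.2.2).image Prod.fst, a k := by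
  rw [Finset.sum_image]
  intro j hj j' hj' hjj
  rw [Finset.mem_coe, Finset.mem_filter] at hj hj'
  exact (hJ j hj.1).eq (hJ j' hj'.1) h0 hj.2 hj'.2 hjj

theorem integral_arcs {J : Finset (ℕ × ℕ × ℕ)} (hJ : ∀ j ∈ J, j.2.2 < 2 ^ j.2.1)
    (f : ℕ × ℕ × ℕ → ℝ → ℝ) (hf : ∀ j ∈ J, Continuous (f j)) :
    ∫ θ in Ico 0 (2 * π), ∑ j ∈ J, (arc j.2.1 j.2.2).indicator (f j) θ
      = ∑ j ∈ J, ∫ θ in arc j.2.1 j.2.2, f j θ := by
  rw [integral_finsetSum]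
  · refine Finset.sum_congr rfl fun j hj => ?_
    rw [setIntegral_indicator (measurableSet_arc _ _), inter_eq_right.2 (arc_sub (hJ j hj))]
  · intro j hj
    exact ((hf j hj).integrableOn_Icc.mono_set Ico_subset_Icc_self).indicator
      (measurableSet_arc _ _)

theorem sum_halves (s : Finset ℕ) : ∑ k ∈ s, (1 / 2 : ℝ) ^ (k + 1) ≤ 1 := by
  obtain ⟨N, hN⟩ : ∃ N, s ⊆ Finset.range N := ⟨s.sup id + 1, fun k hk => by
    rw [Finset.mem_range]
    exact Nat.lt_succ_of_le (Finset.le_sup (f := id) hk)⟩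
  calc ∑ k ∈ s, (1 / 2 : ℝ) ^ (k + 1) ≤ ∑ k ∈ Finset.range N, (1 / 2 : ℝ) ^ (k + 1) :=
        Finset.sum_le_sum_of_subset_of_nonneg hN fun _ _ _ => by positivity
    _ ≤ 1 := by
      have : ∀ N, ∑ k ∈ Finset.range N, (1 / 2 : ℝ) ^ (k + 1) = 1 - (1 / 2) ^ N := by
        intro N
        induction N with
        | zero => simp
        | succ n ih => rw [Finset.sum_range_succ, ih, pow_succ]; ring
      rw [this]
      have : (0 : ℝ) < (1 / 2) ^ N := by positivity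
      linarith

theorem integral_arc_const (g m : ℕ) (c : ℝ) :
    ∫ _θ in arc g m, c = (2 * π / 2 ^ g) * c := by
  rw [setIntegral_const, measureReal_def, volume_arc, ENNReal.toReal_ofReal (by positivity),
    smul_eq_mul]

theorem mass_le {D : ℕ → ℕ → ℝ} {J : Finset (ℕ × ℕ × ℕ)} (hJ : ∀ j ∈ J, Valid D j) :
    ∑ j ∈ J, (1 / 2 : ℝ) ^ (j.1 + 1) * (1 / 2) ^ j.2.1 ≤ 1 := by
  classical
  have h1 := integral_arcs (fun j hj => (hJ j hj).2.1) (fun j _ => (1 / 2 : ℝ) ^ (j.1 + 1))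
    (J := J) (fun j _ => continuous_const)
  simp only [integral_arc_const] at h1
  have h2 : ∫ θ in Ico 0 (2 * π), ∑ j ∈ J, (arc j.2.1 j.2.2).indicator
      (fun _ => (1 / 2 : ℝ) ^ (j.1 + 1)) θ ≤ ∫ _θ in Ico 0 (2 * π), (1 : ℝ) := by
    refine setIntegral_mono_on ?_ ?_ measurableSet_Ico ?_
    · refine integrable_finsetSum _ fun j _ => ?_
      exact ((continuous_const.integrableOn_Icc (a := 0) (b := 2 * π)).mono_set
        Ico_subset_Icc_self).indicator (measurableSet_arc _ _)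
    · exact (continuous_const.integrableOn_Icc (a := 0) (b := 2 * π)).mono_set
        Ico_subset_Icc_self
    · intro θ hθ
      have e1 : ∑ j ∈ J, (arc j.2.1 j.2.2).indicator (fun _ => (1 / 2 : ℝ) ^ (j.1 + 1)) θ
          = ∑ j ∈ J with θ ∈ arc j.2.1 j.2.2, (1 / 2 : ℝ) ^ (j.1 + 1) := by
        rw [Finset.sum_filter]
        refine Finset.sum_congr rfl fun j _ => ?_
        rw [indicator_apply]
      rw [e1, sum_levels hJ hθ.1 (fun k => (1 / 2 : ℝ) ^ (k + 1))]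
      exact sum_halves _
  rw [h1, setIntegral_const, measureReal_def, Real.volume_Ico,
    ENNReal.toReal_ofReal (by linarith [Real.pi_pos]), smul_eq_mul, mul_one, sub_zero] at h2
  have h3 : ∑ j ∈ J, 2 * π / 2 ^ j.2.1 * (1 / 2 : ℝ) ^ (j.1 + 1)
      = (2 * π) * ∑ j ∈ J, (1 / 2 : ℝ) ^ (j.1 + 1) * (1 / 2) ^ j.2.1 := by
    rw [Finset.mul_sum]
    refine Finset.sum_congr rfl fun j _ => ?_
    rw [one_div_pow, one_div_pow]
    ring
  rw [h3] at h2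
  have : 0 < 2 * π := by positivity
  nlinarith

theorem two_pow_ge {i : ℕ} (hi : 14 ≤ i) : (i : ℝ) + 3 ≤ 2 ^ i / 2 := by
  have h : ∀ n : ℕ, ((14 + n : ℕ) : ℝ) + 3 ≤ 2 ^ (14 + n) / 2 := by
    intro n
    induction n with
    | zero => norm_num
    | succ k ih =>
      rw [← add_assoc, pow_succ]
      push_cast at ih ⊢
      linarith
  obtain ⟨n, rfl⟩ := Nat.exists_eq_add_of_le hi
  exact h n

open Classical in
theorem sum_two_pow {D : ℕ → ℕ → ℝ} {J : Finset (ℕ × ℕ × ℕ)} (hJ : ∀ j ∈ J, Valid D j) {θ : ℝ}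
    (h0 : 0 ≤ θ) {I : ℕ} (hI : ∀ j ∈ J, θ ∈ arc j.2.1 j.2.2 → j.1 ≤ I) :
    ∑ j ∈ J with θ ∈ arc j.2.1 j.2.2, (2 : ℝ) ^ j.1 ≤ 2 * 2 ^ I := by
  rw [sum_levels hJ h0 (fun k => (2 : ℝ) ^ k)]
  calc ∑ k ∈ (J.filter fun j => θ ∈ arc j.2.1 j.2.2).image Prod.fst, (2 : ℝ) ^ k
      ≤ ∑ k ∈ Finset.range (I + 1), (2 : ℝ) ^ k := by
        refine Finset.sum_le_sum_of_subset_of_nonneg ?_ fun _ _ _ => by positivity
        intro k hk
        obtain ⟨j, hj, rfl⟩ := Finset.mem_image.1 hk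
        rw [Finset.mem_filter] at hj
        rw [Finset.mem_range]
        exact Nat.lt_succ_of_le (hI j hj.1 hj.2)
    _ ≤ 2 * 2 ^ I := by
      rw [geom_sum_eq (by norm_num), pow_succ]
      have : (0 : ℝ) < 2 ^ I := by positivity
      rw [div_le_iff₀ (by norm_num)]
      linarith

end Pool.Agent.Helper36.CN
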