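import Mathlib

/-! Nevanlinna factorization: an analytic function on the unit disc with bounded `log⁺` means is a
quotient of two bounded analytic functions. -/

set_option autoImplicit false

open Filter Topology Metric Set Real MeasureTheory Complex

namespace Pool.Agent.Helper36.CN

theorem one_le_norm_canonicalFactor {R : ℝ} {w z : ℂ} (hw : w ∈ ball (0 : ℂ) R)
    (hz : z ∈ ball (0 : ℂ) R) (hne : z ≠ w) : 1 ≤ ‖canonicalFactor R w z‖ := by
  rw [mem_ball_zero_iff] at hw hz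
  have hR : 0 < R := (norm_nonneg w).trans_lt hw
  have hzw : 0 < ‖z - w‖ := norm_pos_iff.2 (sub_ne_zero.2 hne)
  rw [canonicalFactor_apply, norm_div, norm_mul, Complex.norm_real, Real.norm_of_nonneg hR.le,
    le_div_iff₀ (by positivity), one_mul]
  have h1 : ‖(R : ℂ) ^ 2 - (starRingEnd ℂ) w * z‖ ^ 2 - (R * ‖z - w‖) ^ 2 =
      (R ^ 2 - ‖w‖ ^ 2) * (R ^ 2 - ‖z‖ ^ 2) := by
    rw [mul_pow, ← Complex.normSq_eq_norm_sq, ← Complex.normSq_eq_norm_sq,
      ← Complex.normSq_eq_norm_sq, ← Complex.normSq_eq_norm_sq]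
    simp only [Complex.normSq_apply, Complex.sub_re, Complex.sub_im, Complex.mul_re,
      Complex.mul_im, Complex.conj_re, Complex.conj_im, ← Complex.ofReal_pow, Complex.ofReal_re,
      Complex.ofReal_im]
    ring
  have h2 : 0 ≤ (R ^ 2 - ‖w‖ ^ 2) * (R ^ 2 - ‖z‖ ^ 2) := by
    apply mul_nonneg <;> nlinarith [norm_nonneg w, norm_nonneg z]
  have h3 : (R * ‖z - w‖) ^ 2 ≤ ‖(R : ℂ) ^ 2 - (starRingEnd ℂ) w * z‖ ^ 2 := by linarith
  exact le_of_sq_le_sq h3 (norm_nonneg _) |>.trans le_rfl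

/-- The product of canonical factors of nonpositive exponents is bounded by `1`. -/
theorem norm_prod_le {R : ℝ} {D : ℂ → ℤ} (hD : ∀ u, 0 ≤ D u) (hD0 : ∀ u, u ∉ ball (0 : ℂ) R → D u = 0)
    {z : ℂ} (hz : z ∈ ball (0 : ℂ) R) :
    ‖(∏ᶠ u, (canonicalFactor R u) ^ (-D u)) z‖ ≤ 1 := by
  by_cases hfin : (Function.mulSupport fun u => (canonicalFactor R u) ^ (-D u)).Finite
  · rw [finprod_eq_prod_of_mulSupport_subset_of_finite _ subset_rfl hfin, Finset.prod_apply,
      norm_prod]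
    refine Finset.prod_le_one (fun _ _ => norm_nonneg _) fun u _ => ?_
    rw [Pi.pow_apply, norm_zpow]
    by_cases hu : u ∈ ball (0 : ℂ) R
    · rcases eq_or_ne z u with rfl | hne
      · rw [canonicalFactor_apply_self, norm_zero]
        rcases eq_or_ne (D z) 0 with h0 | h0
        · simp [h0]
        · rw [zero_zpow _ (by simpa using h0)]; exact zero_le_one
      · rw [zpow_neg]
        exact inv_le_one_of_one_le₀ (one_le_zpow₀ (one_le_norm_canonicalFactor hu hz hne) (hD u))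
    · simp [hD0 u hu]
  · rw [finprod_of_infinite_mulSupport hfin]
    simp

theorem norm_prod_eq {R : ℝ} {D : ℂ → ℤ} (hD0 : ∀ u, u ∉ ball (0 : ℂ) R → D u = 0)
    {z : ℂ} (hz : z ∈ sphere (0 : ℂ) R) :
    ‖(∏ᶠ u, (canonicalFactor R u) ^ (-D u)) z‖ = 1 := by
  by_cases hfin : (Function.mulSupport fun u => (canonicalFactor R u) ^ (-D u)).Finite
  · rw [finprod_eq_prod_of_mulSupport_subset_of_finite _ subset_rfl hfin, Finset.prod_apply,
      norm_prod]
    refine Finset.prod_eq_one fun u _ => ?_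
    rw [Pi.pow_apply, norm_zpow]
    by_cases hu : u ∈ ball (0 : ℂ) R
    · rw [norm_canonicalFactor_eval_circle_eq_one hu hz, one_zpow]
    · simp [hD0 u hu]
  · rw [finprod_of_infinite_mulSupport hfin]
    simp

theorem poissonKernel_nonneg {R : ℝ} {w z : ℂ} (hw : w ∈ ball (0 : ℂ) R)
    (hz : z ∈ sphere (0 : ℂ) R) : 0 ≤ poissonKernel 0 w z := by
  rw [poissonKernel_def]
  rw [mem_ball_zero_iff] at hw
  rw [mem_sphere_zero_iff_norm] at hz
  simp only [sub_zero]
  apply div_nonneg _ (by positivity)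
  rw [hz]
  nlinarith [norm_nonneg w]

theorem continuousOn_poissonKernel {R : ℝ} {w : ℂ} (hw : w ∈ ball (0 : ℂ) R) :
    ContinuousOn (poissonKernel 0 w) (sphere (0 : ℂ) R) := by
  have : poissonKernel 0 w = fun z => (‖z - 0‖ ^ 2 - ‖w - 0‖ ^ 2) / ‖(z - 0) - (w - 0)‖ ^ 2 := by
    funext z; rw [poissonKernel_def]
  rw [this]
  refine ContinuousOn.div (by fun_prop) (by fun_prop) ?_
  intro z hz h
  have h1 : ‖z - 0 - (w - 0)‖ = 0 := by simpa using h
  have h2 : z = w := by simpa [sub_eq_zero] using h1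
  rw [mem_ball_zero_iff] at hw
  rw [mem_sphere_zero_iff_norm, h2] at hz
  linarith

/-- The sub-Poisson inequality for `log ‖f‖`. -/
theorem sub_poisson {f : ℂ → ℂ} {R : ℝ} (hR : 0 < R) (hf : AnalyticOnNhd ℂ f (closedBall 0 R))
    (hs : ∀ z ∈ sphere (0 : ℂ) R, f z ≠ 0) {w : ℂ} (hw : w ∈ ball (0 : ℂ) R) :
    ‖f w‖ ≤ Real.exp (circleAverage (poissonKernel 0 w • fun z => posLog ‖f z‖) 0 R) := by
  have hcon : IsConnected (closedBall (0 : ℂ) R) := Metric.isConnected_closedBall hR.le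
  have htop : ∀ u : closedBall (0 : ℂ) R, meromorphicOrderAt f u ≠ ⊤ := by
    rw [← hf.meromorphicOn.exists_meromorphicOrderAt_ne_top_iff_forall hcon]
    have hRs : (R : ℂ) ∈ sphere (0 : ℂ) R := by
      rw [mem_sphere_zero_iff_norm, Complex.norm_real, Real.norm_of_nonneg hR.le]
    refine ⟨⟨(R : ℂ), sphere_subset_closedBall hRs⟩, ?_⟩
    have h0 := (hf _ (sphere_subset_closedBall hRs)).meromorphicNFAt.meromorphicOrderAt_eq_zero_iff.2
      (hs _ hRs)
    simp [h0]
  obtain ⟨g, D⟩ := hf.meromorphicOn.exists_ecanonicalDecomp htop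
  have hdiv0 : ∀ v, MeromorphicOn.divisor f (sphere 0 R) v = 0 := by
    intro v
    by_cases hv : v ∈ sphere (0 : ℂ) R
    · rw [MeromorphicOn.divisor_apply (hf.meromorphicOn.mono_set sphere_subset_closedBall) hv,
        (hf _ (sphere_subset_closedBall hv)).meromorphicNFAt.meromorphicOrderAt_eq_zero_iff.2
          (hs _ hv)]
      rfl
    · exact Function.locallyFinsuppWithin.apply_eq_zero_of_notMem _ hv
  have hone : (∏ᶠ v, (fun x : ℂ => x - v) ^ (MeromorphicOn.divisor f (sphere 0 R)) v) = 1 := by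
    apply finprod_eq_one_of_forall_eq_one
    intro v
    rw [hdiv0 v, zpow_zero]
  set P : ℂ → ℂ := ∏ᶠ u, (canonicalFactor R u) ^ (-MeromorphicOn.divisor f (ball 0 R) u) with hP
  have hev : {z | f z = P z * g z} ∈ codiscreteWithin (closedBall (0 : ℂ) R) := by
    have := D.eventuallyEq
    filter_upwards [this] with z hz
    rw [hone, mul_one, ← hP] at hz
    exact hz
  have hDnn : ∀ u, 0 ≤ MeromorphicOn.divisor f (ball 0 R) u := fun u =>
    MeromorphicOn.AnalyticOnNhd.divisor_nonneg (hf.mono ball_subset_closedBall) u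
  have hD0 : ∀ u, u ∉ ball (0 : ℂ) R → MeromorphicOn.divisor f (ball 0 R) u = 0 := fun u hu =>
    Function.locallyFinsuppWithin.apply_eq_zero_of_notMem _ hu
  -- comparison at `w`
  have hcmp : ‖f w‖ ≤ ‖g w‖ := by
    have hfc : Tendsto (fun z => ‖f z‖) (𝓝[≠] w) (𝓝 ‖f w‖) :=
      ((hf w (ball_subset_closedBall hw)).continuousAt.norm).tendsto.mono_left nhdsWithin_le_nhds
    have hgc : Tendsto (fun z => ‖g z‖) (𝓝[≠] w) (𝓝 ‖g w‖) :=
      ((D.analyticOnNhd w (ball_subset_closedBall hw)).continuousAt.norm).tendsto.mono_left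
        nhdsWithin_le_nhds
    refine le_of_tendsto_of_tendsto hfc hgc ?_
    rw [mem_codiscreteWithin] at hev
    have h1 := hev w (ball_subset_closedBall hw)
    rw [Filter.disjoint_principal_right] at h1
    have h2 : ∀ᶠ z in 𝓝[≠] w, z ∈ ball (0 : ℂ) R :=
      nhdsWithin_le_nhds (isOpen_ball.mem_nhds hw)
    filter_upwards [h1, h2] with z hz1 hz2
    have hz3 : f z = P z * g z := by
      by_contra hne
      exact hz1 ⟨ball_subset_closedBall hz2, hne⟩
    rw [hz3, norm_mul]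
    exact mul_le_of_le_one_left (norm_nonneg _) (norm_prod_le hDnn hD0 hz2)
  have hgw : g w ≠ 0 := D.ne_zero w (ball_subset_closedBall hw)
  -- Poisson formula for `log ‖g‖`
  have hharm : InnerProductSpace.HarmonicOnNhd (fun z => Real.log ‖g z‖) (closedBall 0 R) := by
    intro z hz
    exact (D.analyticOnNhd z hz).harmonicAt_log_norm (D.ne_zero z hz)
  have hpois := hharm.circleAverage_poissonKernel_smul hw
  have hcongr : circleAverage (poissonKernel 0 w • fun z => Real.log ‖g z‖) 0 R =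
      circleAverage (poissonKernel 0 w • fun z => Real.log ‖f z‖) 0 R := by
    refine circleAverage_congr_codiscreteWithin ?_ hR.ne'
    rw [abs_of_pos hR]
    have h1 : {z | f z = P z * g z} ∈ codiscreteWithin (sphere (0 : ℂ) R) :=
      codiscreteWithin_mono sphere_subset_closedBall hev
    filter_upwards [h1, self_mem_codiscreteWithin (sphere (0 : ℂ) R)] with z hz1 hz2
    have hz1' : f z = P z * g z := hz1
    simp only [Pi.smul_apply', smul_eq_mul]
    rw [hz1', norm_mul, norm_prod_eq hD0 hz2, one_mul]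
  have hfs : ContinuousOn (fun z => Real.log ‖f z‖) (sphere (0 : ℂ) R) := by
    refine ContinuousOn.log ?_ fun z hz => norm_ne_zero_iff.2 (hs z hz)
    exact (hf.continuousOn.mono sphere_subset_closedBall).norm
  have hfs' : ContinuousOn (fun z => posLog ‖f z‖) (sphere (0 : ℂ) R) :=
    continuous_posLog.comp_continuousOn (hf.continuousOn.mono sphere_subset_closedBall).norm
  have hmono : circleAverage (poissonKernel 0 w • fun z => Real.log ‖f z‖) 0 R ≤
      circleAverage (poissonKernel 0 w • fun z => posLog ‖f z‖) 0 R := by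
    refine circleAverage_mono ?_ ?_ ?_
    · refine ContinuousOn.circleIntegrable' ?_
      rw [abs_of_pos hR]
      exact (continuousOn_poissonKernel hw).smul hfs
    · refine ContinuousOn.circleIntegrable' ?_
      rw [abs_of_pos hR]
      exact (continuousOn_poissonKernel hw).smul hfs'
    · intro z hz
      rw [abs_of_pos hR] at hz
      simp only [Pi.smul_apply', smul_eq_mul]
      exact mul_le_mul_of_nonneg_left (le_max_right _ _) (poissonKernel_nonneg hw hz)
  have hfinal : Real.log ‖g w‖ ≤ circleAverage (poissonKernel 0 w • fun z => posLog ‖f z‖) 0 R := by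
    rw [← hpois]
    have : (poissonKernel 0 w • fun z => Real.log ‖g z‖) =
      (poissonKernel 0 w • fun z => Real.log ‖g z‖) := rfl
    exact hcongr.le.trans hmono
  calc ‖f w‖ ≤ ‖g w‖ := hcmp
    _ = Real.exp (Real.log ‖g w‖) := (Real.exp_log (norm_pos_iff.2 hgw)).symm
    _ ≤ _ := Real.exp_le_exp.2 hfinal

theorem coeff_bound {h : ℂ → ℂ} {r ρ : ℝ} (hρ : 0 < ρ) (hρr : ρ < r)
    (hd : DifferentiableOn ℂ h (ball 0 r)) (hb : ∀ z ∈ ball (0 : ℂ) r, ‖h z‖ ≤ 1) (k : ℕ) :
    ‖((k.factorial : ℂ)⁻¹ * iteratedDeriv k h 0)‖ ≤ (ρ⁻¹) ^ k := by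
  have hcb : closedBall (0 : ℂ) ρ ⊆ ball 0 r := closedBall_subset_ball hρr
  have h1 : DiffContOnCl ℂ h (ball 0 ρ) := by
    refine DifferentiableOn.diffContOnCl ?_
    rw [closure_ball _ hρ.ne']
    exact hd.mono hcb
  have h2 := norm_iteratedDeriv_le_of_forall_mem_sphere_norm_le k hρ h1
    (fun z hz => hb z (hcb (sphere_subset_closedBall hz)))
  rw [norm_mul, norm_inv, Complex.norm_natCast]
  have hk : (0 : ℝ) < k.factorial := by exact_mod_cast k.factorial_pos
  rw [inv_mul_le_iff₀ hk, inv_pow]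
  refine h2.trans (le_of_eq ?_)
  ring

theorem exists_limit {r : ℕ → ℝ} (hr : Tendsto r atTop (𝓝 1)) {h : ℕ → ℂ → ℂ}
    (hd : ∀ n, DifferentiableOn ℂ (h n) (ball 0 (r n)))
    (hb : ∀ n, ∀ z ∈ ball (0 : ℂ) (r n), ‖h n z‖ ≤ 1) :
    ∃ H : ℂ → ℂ, DifferentiableOn ℂ H (ball 0 1) ∧ ∃ U : Ultrafilter ℕ, (U : Filter ℕ) ≤ atTop ∧
      ∀ z ∈ ball (0 : ℂ) 1, Tendsto (fun n => h n z) U (𝓝 (H z)) := by
  obtain ⟨U, hU⟩ : ∃ U : Ultrafilter ℕ, (U : Filter ℕ) ≤ atTop :=
    ⟨Ultrafilter.of atTop, Ultrafilter.of_le _⟩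
  set a : ℕ → ℕ → ℂ := fun k n => (k.factorial : ℂ)⁻¹ * iteratedDeriv k (h n) 0 with ha
  have hlarge : ∀ ρ < 1, ∀ᶠ n in (U : Filter ℕ), ρ < r n := fun ρ hρ =>
    hU (hr.eventually (lt_mem_nhds hρ))
  have hab : ∀ ρ, 0 < ρ → ρ < 1 → ∀ᶠ n in (U : Filter ℕ), ∀ k, ‖a k n‖ ≤ (ρ⁻¹) ^ k := by
    intro ρ hρ0 hρ1
    filter_upwards [hlarge ρ hρ1] with n hn k
    exact coeff_bound hρ0 hn (hd n) (hb n) k
  have hlim : ∀ k, ∃ A : ℂ, Tendsto (a k) U (𝓝 A) := by
    intro k
    have h1 : (U.map (a k) : Filter ℂ) ≤ 𝓟 (closedBall 0 (((1/2 : ℝ)⁻¹) ^ k)) := by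
      rw [le_principal_iff]
      change ∀ᶠ n in (U : Filter ℕ), a k n ∈ closedBall (0 : ℂ) (((1/2 : ℝ)⁻¹) ^ k)
      filter_upwards [hab (1/2) (by norm_num) (by norm_num)] with n hn
      rw [mem_closedBall_zero_iff]
      exact hn k
    obtain ⟨A, -, hA⟩ := (isCompact_closedBall (0 : ℂ) _).ultrafilter_le_nhds (U.map (a k)) h1
    exact ⟨A, hA⟩
  choose A hA using hlim
  have hAb : ∀ ρ, 0 < ρ → ρ < 1 → ∀ k, ‖A k‖ ≤ (ρ⁻¹) ^ k := by
    intro ρ hρ0 hρ1 k
    refine le_of_tendsto (hA k).norm ?_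
    filter_upwards [hab ρ hρ0 hρ1] with n hn
    exact hn k
  refine ⟨fun z => ∑' k, A k * z ^ k, ?_, U, hU, ?_⟩
  · intro z hz
    rw [mem_ball_zero_iff] at hz
    obtain ⟨ρ', h1, h2⟩ := exists_between hz
    obtain ⟨ρ, h3, h4⟩ := exists_between h2
    have hρ'0 : 0 < ρ' := (norm_nonneg z).trans_lt h1
    have hρ0 : 0 < ρ := hρ'0.trans h3
    have hs : Summable fun k : ℕ => (ρ⁻¹ * ρ') ^ k := by
      refine summable_geometric_of_lt_one (by positivity) ?_
      rw [inv_mul_lt_iff₀ hρ0, mul_one]; exact h3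
    have h5 := differentiableOn_tsum_of_summable_norm (F := fun (k : ℕ) (z : ℂ) => A k * z ^ k)
      (U := ball (0 : ℂ) ρ') hs (fun k => by fun_prop) isOpen_ball (by
        intro k w hw
        rw [mem_ball_zero_iff] at hw
        rw [norm_mul, norm_pow, mul_pow]
        exact mul_le_mul (hAb ρ hρ0 h4 k) (pow_le_pow_left₀ (norm_nonneg _) hw.le k)
          (by positivity) (by positivity))
    exact (h5.differentiableAt (isOpen_ball.mem_nhds (mem_ball_zero_iff.2 h1))).differentiableWithinAt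
  · intro z hz
    rw [mem_ball_zero_iff] at hz
    obtain ⟨ρ, h1, h2⟩ := exists_between hz
    have hρ0 : 0 < ρ := (norm_nonneg z).trans_lt h1
    have hs : Summable fun k : ℕ => (ρ⁻¹ * ‖z‖) ^ k := by
      refine summable_geometric_of_lt_one (by positivity) ?_
      rw [inv_mul_lt_iff₀ hρ0, mul_one]; exact h1
    have h3 : Tendsto (fun n => ∑' k, a k n * z ^ k) U (𝓝 (∑' k, A k * z ^ k)) := by
      refine tendsto_tsum_of_dominated_convergence hs (fun k => (hA k).mul_const _) ?_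
      filter_upwards [hab ρ hρ0 h2] with n hn k
      rw [norm_mul, norm_pow, mul_pow]
      exact mul_le_mul_of_nonneg_right (hn k) (by positivity)
    refine h3.congr' ?_
    filter_upwards [hlarge ρ h2] with n hn
    have h4 := Complex.taylorSeries_eq_on_ball' (c := 0) (z := z) (r := r n)
      (by rw [mem_ball_zero_iff]; exact h1.trans hn) (hd n)
    rw [← h4]
    simp [ha]

theorem finite_zeros {G : ℂ → ℂ} (hG : DifferentiableOn ℂ G (ball 0 1))
    (hne : ∃ w ∈ ball (0 : ℂ) 1, G w ≠ 0) {ρ : ℝ} (hρ : ρ < 1) :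
    (closedBall (0 : ℂ) ρ ∩ {z | G z = 0}).Finite := by
  obtain ⟨w, hw, hGw⟩ := hne
  have hA : AnalyticOnNhd ℂ G (ball 0 1) := hG.analyticOnNhd isOpen_ball
  have hcod := hA.preimage_zero_mem_codiscreteWithin hGw hw
    ((convex_ball (0:ℂ) 1).isConnected ⟨w, hw⟩)
  rw [codiscreteWithin_iff_locallyFiniteComplementWithin] at hcod
  have hsub : closedBall (0 : ℂ) ρ ⊆ ball 0 1 := closedBall_subset_ball hρ
  have h1 : ((closedBall (0 : ℂ) ρ) ∩ (ball 0 1 \ G ⁻¹' {0}ᶜ)).Finite := by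
    refine (isCompact_closedBall (0 : ℂ) ρ).induction_on
      (p := fun s => (s ∩ (ball 0 1 \ G ⁻¹' {0}ᶜ)).Finite) (by simp) ?_ ?_ ?_
    · intro s t hst ht
      exact ht.subset (inter_subset_inter_left _ hst)
    · intro s t hs ht
      rw [union_inter_distrib_right]
      exact hs.union ht
    · intro x hx
      obtain ⟨t, ht, hfin⟩ := hcod x (hsub hx)
      exact ⟨t, mem_nhdsWithin_of_mem_nhds ht, hfin⟩
  refine h1.subset ?_
  rintro z ⟨hz1, hz2⟩
  exact ⟨hz1, hsub hz1, by simpa using hz2⟩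

theorem exists_radius {G : ℂ → ℂ} (hG : DifferentiableOn ℂ G (ball 0 1))
    (hne : ∃ w ∈ ball (0 : ℂ) 1, G w ≠ 0) {a b : ℝ} (hab : a < b) (hb : b < 1) :
    ∃ r, a < r ∧ r < b ∧ ∀ z ∈ sphere (0 : ℂ) r, G z ≠ 0 := by
  have hfin := (finite_zeros hG hne hb).image norm
  obtain ⟨r, hr1, hr2⟩ := ((Ioo_infinite hab).sdiff hfin).nonempty
  refine ⟨r, hr1.1, hr1.2, fun z hz h0 => hr2 ⟨z, ⟨?_, h0⟩, ?_⟩⟩
  · rw [mem_sphere_zero_iff_norm] at hz
    rw [mem_closedBall_zero_iff, hz]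
    exact hr1.2.le
  · rw [mem_sphere_zero_iff_norm] at hz
    exact hz

/-- One step: a good denominator on a smaller disc. -/
theorem exists_denominator {G : ℂ → ℂ} (hG : DifferentiableOn ℂ G (ball 0 1)) {C r : ℝ}
    (hr0 : 0 < r) (hr1 : r < 1) (hs : ∀ z ∈ sphere (0 : ℂ) r, G z ≠ 0)
    (hC : circleAverage (fun z => posLog ‖G z‖) 0 r ≤ C) :
    ∃ h : ℂ → ℂ, DifferentiableOn ℂ h (ball 0 r) ∧ (∀ z ∈ ball (0 : ℂ) r, ‖h z‖ ≤ 1) ∧
      (∀ z ∈ ball (0 : ℂ) r, ‖G z * h z‖ ≤ 1) ∧ Real.exp (-C) ≤ ‖h 0‖ := by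
  have hA : AnalyticOnNhd ℂ G (ball 0 1) := hG.analyticOnNhd isOpen_ball
  have hsub : closedBall (0 : ℂ) r ⊆ ball 0 1 := closedBall_subset_ball hr1
  have hcont : ContinuousOn (fun z => posLog ‖G z‖) (sphere (0 : ℂ) r) :=
    continuous_posLog.comp_continuousOn
      (hA.continuousOn.mono (sphere_subset_closedBall.trans hsub)).norm
  have hci : CircleIntegrable (fun z => posLog ‖G z‖) 0 r := by
    refine ContinuousOn.circleIntegrable' ?_
    rwa [abs_of_pos hr0]
  have hci' : CircleIntegrable (fun z => ((posLog ‖G z‖ : ℝ) : ℂ)) 0 r := by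
    refine ContinuousOn.circleIntegrable' ?_
    rw [abs_of_pos hr0]
    exact Complex.continuous_ofReal.comp_continuousOn hcont
  set F : ℂ → ℂ := fun w => circleAverage
    (fun ζ => herglotzRieszKernel 0 w ζ • ((posLog ‖G ζ‖ : ℝ) : ℂ)) 0 r with hF
  have hFd : DifferentiableOn ℂ F (ball 0 r) :=
    differentiableOn_circleAverage_herglotzRieszKernel_smul hci'
  have hre : ∀ w ∈ ball (0 : ℂ) r, (F w).re =
      circleAverage (poissonKernel 0 w • fun z => posLog ‖G z‖) 0 r := by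
    intro w hw
    rw [hF]
    rw [re_circleAverage_herglotzRieszKernel_smul hci hw]
    refine circleAverage_congr_sphere fun z hz => ?_
    simp only [Pi.smul_apply', Function.comp_apply, smul_eq_mul]
    rw [poissonKernel_eq_re_herglotzRieszKernel, Function.comp_apply]
  have hre0 : ∀ w ∈ ball (0 : ℂ) r, 0 ≤ (F w).re := by
    intro w hw
    rw [hre w hw]
    refine circleAverage_nonneg_of_nonneg fun z hz => ?_
    rw [abs_of_pos hr0] at hz
    exact mul_nonneg (poissonKernel_nonneg hw hz) posLog_nonneg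
  refine ⟨fun w => Complex.exp (-F w), hFd.neg.cexp, ?_, ?_, ?_⟩
  · intro w hw
    rw [Complex.norm_exp, Complex.neg_re]
    rw [Real.exp_le_one_iff]
    linarith [hre0 w hw]
  · intro w hw
    rw [norm_mul, Complex.norm_exp, Complex.neg_re, Real.exp_neg, hre w hw,
      ← div_eq_mul_inv, div_le_one (Real.exp_pos _)]
    exact sub_poisson hr0 (hA.mono hsub) hs hw
  · have h0 : (0 : ℂ) ∈ ball (0 : ℂ) r := mem_ball_self hr0
    rw [Complex.norm_exp, Complex.neg_re, hre 0 h0]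
    apply Real.exp_le_exp.2
    rw [neg_le_neg_iff]
    refine le_trans (le_of_eq ?_) hC
    refine circleAverage_congr_sphere fun z hz => ?_
    rw [abs_of_pos hr0, mem_sphere_zero_iff_norm] at hz
    simp only [Pi.smul_apply', smul_eq_mul]
    have h1 : poissonKernel 0 0 z = 1 := by
      rw [poissonKernel_def]
      simp only [sub_zero, norm_zero]
      have : ‖z‖ ≠ 0 := by rw [hz]; exact hr0.ne'
      field_simp
      simp
    rw [h1, one_mul]

/-- **Nevanlinna factorization**. -/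
theorem factorization {G : ℂ → ℂ} (hG : DifferentiableOn ℂ G (ball 0 1)) {C : ℝ}
    (hC : ∀ r : ℝ, 1 / 2 ≤ r → r < 1 → circleAverage (fun z => posLog ‖G z‖) 0 r ≤ C) :
    ∃ g h : ℂ → ℂ, DifferentiableOn ℂ g (ball 0 1) ∧ DifferentiableOn ℂ h (ball 0 1) ∧
      (∀ z ∈ ball (0 : ℂ) 1, ‖g z‖ ≤ 1 ∧ ‖h z‖ ≤ 1) ∧ h 0 ≠ 0 ∧
      ∀ z ∈ ball (0 : ℂ) 1, G z * h z = g z := by
  by_cases hne : ∃ w ∈ ball (0 : ℂ) 1, G w ≠ 0
  swap
  · push Not at hne
    refine ⟨fun _ => 0, fun _ => 1, differentiableOn_const _, differentiableOn_const _, ?_,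
      one_ne_zero, ?_⟩
    · intro z _; simp
    · intro z hz; simp [hne z hz]
  have hrad : ∀ n : ℕ, ∃ r, 1 - 1 / ((n : ℝ) + 2) < r ∧ r < 1 - 1 / ((n : ℝ) + 3) ∧
      ∀ z ∈ sphere (0 : ℂ) r, G z ≠ 0 := by
    intro n
    have hn : (0 : ℝ) ≤ n := n.cast_nonneg
    refine exists_radius hG hne ?_ ?_
    · have : 1 / ((n : ℝ) + 3) < 1 / ((n : ℝ) + 2) :=
        one_div_lt_one_div_of_lt (by linarith) (by linarith)
      linarith
    · have : 0 < 1 / ((n : ℝ) + 3) := by positivity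
      linarith
  choose r hr1 hr2 hr3 using hrad
  have hrh : ∀ n, 1 / 2 ≤ r n := by
    intro n
    have hn : (0 : ℝ) ≤ n := n.cast_nonneg
    have : 1 / ((n : ℝ) + 2) ≤ 1 / 2 := one_div_le_one_div_of_le (by norm_num) (by linarith)
    have := hr1 n
    linarith
  have hrl : ∀ n, r n < 1 := by
    intro n
    have hn : (0 : ℝ) ≤ n := n.cast_nonneg
    have : 0 < 1 / ((n : ℝ) + 3) := by positivity
    have := hr2 n
    linarith
  have hrt : Tendsto r atTop (𝓝 1) := by
    have h1 : Tendsto (fun n : ℕ => 1 - 1 / ((n : ℝ) + 2)) atTop (𝓝 1) := by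
      have h2 : Tendsto (fun n : ℕ => (n : ℝ) + 2) atTop atTop :=
        tendsto_atTop_add_const_right _ _ tendsto_natCast_atTop_atTop
      have h3 : Tendsto (fun n : ℕ => 1 / ((n : ℝ) + 2)) atTop (𝓝 0) :=
        (tendsto_const_nhds (x := (1:ℝ))).div_atTop h2
      simpa using h3.const_sub 1
    exact tendsto_of_tendsto_of_tendsto_of_le_of_le h1 tendsto_const_nhds
      (fun n => (hr1 n).le) (fun n => (hrl n).le)
  have hden := fun n => exists_denominator hG (by linarith [hrh n]) (hrl n) (hr3 n)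
    (hC (r n) (hrh n) (hrl n))
  choose h hd hb hGb h0 using hden
  obtain ⟨H, hH, U, hU, hlim⟩ := exists_limit hrt hd hb
  have hlarge : ∀ z ∈ ball (0 : ℂ) 1, ∀ᶠ n in (U : Filter ℕ), z ∈ ball (0 : ℂ) (r n) := by
    intro z hz
    rw [mem_ball_zero_iff] at hz
    filter_upwards [hU (hrt.eventually (lt_mem_nhds hz))] with n hn
    rwa [mem_ball_zero_iff]
  refine ⟨fun z => G z * H z, H, hG.mul hH, hH, ?_, ?_, fun z _ => rfl⟩
  · intro z hz
    constructor
    · refine le_of_tendsto ((hlim z hz).const_mul (G z)).norm ?_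
      filter_upwards [hlarge z hz] with n hn
      exact hGb n z hn
    · refine le_of_tendsto (hlim z hz).norm ?_
      filter_upwards [hlarge z hz] with n hn
      exact hb n z hn
  · have h1 : Real.exp (-C) ≤ ‖H 0‖ :=
      ge_of_tendsto (hlim 0 (mem_ball_self one_pos)).norm (Eventually.of_forall fun n => h0 n)
    exact norm_pos_iff.1 ((Real.exp_pos _).trans_le h1)

end Pool.Agent.Helper36.CN
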