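import Pool.Agent.Helper36.CauchyN.Char

/-! Complex measures: finiteness of the variation, approximation of integrals by finite sums,
discrete measures, differentiability of Cauchy integrals. -/

set_option autoImplicit false

open Filter Topology Metric Set Real MeasureTheory Complex

namespace Pool.Agent.Helper36.CN

section General

variable {X : Type*} [MeasurableSpace X]

theorem isFiniteMeasure_variation (μ : ComplexMeasure X) : IsFiniteMeasure μ.variation := by
  have h : μ.variation ≤ (ComplexMeasure.re μ).variation + (ComplexMeasure.im μ).variation := by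
    refine VectorMeasure.variation_le_of_forall_enorm_le fun E hE => ?_
    have h1 : ‖μ E‖ₑ ≤ ‖ComplexMeasure.re μ E‖ₑ + ‖ComplexMeasure.im μ E‖ₑ := by
      have h2 : μ E = ((ComplexMeasure.re μ E : ℝ) : ℂ) + (ComplexMeasure.im μ E : ℝ) * Complex.I := by
        change μ E = (((μ E).re : ℝ) : ℂ) + ((μ E).im : ℝ) * Complex.I
        exact (Complex.re_add_im _).symm
      calc ‖μ E‖ₑ = ‖((ComplexMeasure.re μ E : ℝ) : ℂ) + (ComplexMeasure.im μ E : ℝ) * Complex.I‖ₑ := by
            rw [← h2]
        _ ≤ ‖((ComplexMeasure.re μ E : ℝ) : ℂ)‖ₑ + ‖((ComplexMeasure.im μ E : ℝ) : ℂ) * Complex.I‖ₑ :=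
            enorm_add_le _ _
        _ = _ := by
            congr 1
            · rw [← ofReal_norm, ← ofReal_norm, Complex.norm_real]
            · rw [← ofReal_norm, ← ofReal_norm, norm_mul, Complex.norm_I, mul_one,
                Complex.norm_real]
    refine h1.trans ?_
    rw [Measure.add_apply]
    exact add_le_add (VectorMeasure.enorm_measure_le_variation _ _)
      (VectorMeasure.enorm_measure_le_variation _ _)
  have h1 : IsFiniteMeasure (ComplexMeasure.re μ).variation := by
    rw [← SignedMeasure.totalVariation_eq_variation]; infer_instance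
  have h2 : IsFiniteMeasure (ComplexMeasure.im μ).variation := by
    rw [← SignedMeasure.totalVariation_eq_variation]; infer_instance
  exact isFiniteMeasure_of_le _ h

theorem integral_comp_simpleFunc (μ : ComplexMeasure X) (s : SimpleFunc X X) (F : X → ℂ) :
    VectorMeasure.integral μ (fun x => F (s x)) (ContinuousLinearMap.mul ℝ ℂ) =
      ∑ y ∈ s.range, F y * μ (s ⁻¹' {y}) := by
  classical
  have := isFiniteMeasure_variation μ
  have h1 : (fun x => F (s x)) = fun x => ∑ y ∈ s.range, (s ⁻¹' {y}).indicator (fun _ => F y) x := by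
    funext x
    rw [Finset.sum_eq_single (s x)]
    · rw [indicator_of_mem (by simp)]
    · intro b _ hb
      exact indicator_of_notMem (by simpa using hb.symm) _
    · intro h
      exact absurd (s.mem_range_self x) h
  rw [h1, VectorMeasure.integral_finsetSum]
  · refine Finset.sum_congr rfl fun y _ => ?_
    rw [VectorMeasure.integral_indicator_const _ (s.measurableSet_fiber y)]
    rfl
  · intro y _
    exact (integrable_const (F y)).indicator (s.measurableSet_fiber y)

theorem sum_norm_le (μ : ComplexMeasure X) (s : SimpleFunc X X) :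
    ∑ y ∈ s.range, ‖μ (s ⁻¹' {y})‖ ≤ μ.variation.real univ := by
  classical
  have := isFiniteMeasure_variation μ
  have h1 : ∀ y ∈ s.range, ‖μ (s ⁻¹' {y})‖ ≤ μ.variation.real (s ⁻¹' {y}) := fun y _ =>
    VectorMeasure.norm_measure_le_variation
  refine (Finset.sum_le_sum h1).trans (le_of_eq ?_)
  simp only [measureReal_def]
  rw [← ENNReal.toReal_sum (fun _ _ => measure_ne_top _ _),
    s.sum_range_measure_preimage_singleton μ.variation]

theorem integral_const_mul (μ : ComplexMeasure X) (c : ℂ) (f : X → ℂ) :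
    VectorMeasure.integral μ (fun x => c * f x) (ContinuousLinearMap.mul ℝ ℂ) =
      c * VectorMeasure.integral μ f (ContinuousLinearMap.mul ℝ ℂ) := by
  rw [VectorMeasure.integral_eq_setToFun, VectorMeasure.integral_eq_setToFun]
  refine setToFun_smul _ (fun c s x => ?_) c f
  simp only [transpose_eq_cbmApplyMeasure, cbmApplyMeasure_apply, ContinuousLinearMap.mul_apply',
    smul_eq_mul, mul_assoc]

/-- Every finite sum over a finite set can be enumerated by natural numbers. -/
theorem exists_enum {ι : Type*} [Nonempty ι] (T : Finset ι) :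
    ∃ (n : ℕ) (f : ℕ → ι), ∀ {E : Type} [AddCommMonoid E] (g : ι → E),
      ∑ j ∈ Finset.range n, g (f j) = ∑ i ∈ T, g i := by
  classical
  induction T using Finset.induction_on with
  | empty => exact ⟨0, fun _ => Classical.arbitrary ι, fun g => by simp⟩
  | insert a T ha ih =>
    obtain ⟨n, f, hf⟩ := ih
    refine ⟨n + 1, fun j => if j = n then a else f j, fun g => ?_⟩
    rw [Finset.sum_range_succ, Finset.sum_insert ha, ← hf g, add_comm]
    congr 1
    · simp
    · refine Finset.sum_congr rfl fun j hj => ?_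
      simp only [if_neg (Finset.mem_range.1 hj).ne]

end General

/-- The Cauchy kernel integrals of complex measures on a closed set are holomorphic off the set. -/
theorem differentiableOn_cauchy {Γ : Set ℂ} (hΓ : IsCompact Γ) (μ : ComplexMeasure Γ) :
    DifferentiableOn ℂ (fun z => VectorMeasure.integral μ (fun ζ : Γ => ((ζ : ℂ) - z)⁻¹)
      (ContinuousLinearMap.mul ℝ ℂ)) Γᶜ := by
  have := isFiniteMeasure_variation μ
  intro w hw
  obtain ⟨d, hd, hball⟩ := Metric.isOpen_iff.1 hΓ.isClosed.isOpen_compl w hw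
  have hdist : ∀ ζ : Γ, d ≤ ‖(ζ : ℂ) - w‖ := by
    intro ζ
    by_contra hlt
    push Not at hlt
    exact hball (show (ζ : ℂ) ∈ ball w d by rwa [mem_ball, dist_eq_norm]) ζ.2
  set a : ℕ → ℂ := fun k => VectorMeasure.integral μ (fun ζ : Γ => (((ζ : ℂ) - w)⁻¹) ^ (k + 1))
      (ContinuousLinearMap.mul ℝ ℂ) with ha
  have hmeas : ∀ (k : ℕ) , Measurable fun ζ : Γ => (((ζ : ℂ) - w)⁻¹) ^ (k + 1) := by
    intro k
    fun_prop
  set V := μ.variation.real univ with hV
  have hV0 : 0 ≤ V := measureReal_nonneg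
  set B : ℝ := ‖ContinuousLinearMap.mul ℝ ℂ‖ with hB
  have hab : ∀ k, ‖a k‖ ≤ (d⁻¹) ^ (k + 1) * B * V := by
    intro k
    refine VectorMeasure.norm_integral_le_of_norm_le_const (Eventually.of_forall fun ζ => ?_)
    rw [norm_pow, norm_inv]
    exact pow_le_pow_left₀ (by positivity) (inv_anti₀ hd (hdist ζ)) _
  have hser : ∀ z ∈ ball w (d / 2), VectorMeasure.integral μ (fun ζ : Γ => ((ζ : ℂ) - z)⁻¹)
      (ContinuousLinearMap.mul ℝ ℂ) = ∑' k, (z - w) ^ k * a k := by
    intro z hz
    rw [mem_ball, dist_eq_norm] at hz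
    have hq0 : 0 ≤ ‖z - w‖ * d⁻¹ := by positivity
    have hq : ‖z - w‖ * d⁻¹ < 1 := by
      rw [← div_eq_mul_inv, div_lt_one hd]; linarith
    have hsum : HasSum (fun k : ℕ => VectorMeasure.integral μ
        (fun ζ : Γ => (z - w) ^ k * (((ζ : ℂ) - w)⁻¹) ^ (k + 1)) (ContinuousLinearMap.mul ℝ ℂ))
        (VectorMeasure.integral μ (fun ζ : Γ => ((ζ : ℂ) - z)⁻¹)
          (ContinuousLinearMap.mul ℝ ℂ)) := by
      refine VectorMeasure.hasSum_integral_of_dominated_convergence
        (fun k _ => (‖z - w‖ * d⁻¹) ^ k * d⁻¹) ?_ ?_ ?_ ?_ ?_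
      · intro k
        exact (measurable_const.mul (hmeas k)).aestronglyMeasurable
      · intro k
        refine Eventually.of_forall fun ζ => ?_
        rw [norm_mul, norm_pow, norm_pow, norm_inv, mul_pow, pow_succ, ← mul_assoc]
        have h1 : ‖(ζ : ℂ) - w‖⁻¹ ≤ d⁻¹ := inv_anti₀ hd (hdist ζ)
        have h0 : 0 ≤ ‖(ζ : ℂ) - w‖⁻¹ := by positivity
        gcongr
      · exact Eventually.of_forall fun ζ => (summable_geometric_of_lt_one hq0 hq).mul_right _
      · exact integrable_const _
      · refine Eventually.of_forall fun ζ => ?_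
        have hne : (ζ : ℂ) - w ≠ 0 := norm_pos_iff.1 (hd.trans_le (hdist ζ))
        have h1 : ‖(z - w) * ((ζ : ℂ) - w)⁻¹‖ < 1 := by
          rw [norm_mul, norm_inv]
          refine lt_of_le_of_lt ?_ hq
          have h1 : ‖(ζ : ℂ) - w‖⁻¹ ≤ d⁻¹ := inv_anti₀ hd (hdist ζ)
          gcongr
        have h2 := (hasSum_geometric_of_norm_lt_one h1).mul_right (((ζ : ℂ) - w)⁻¹)
        have h3 : (1 - (z - w) * ((ζ : ℂ) - w)⁻¹)⁻¹ * ((ζ : ℂ) - w)⁻¹ = ((ζ : ℂ) - z)⁻¹ := by
          rw [← mul_inv]
          congr 1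
          field_simp
          ring
        rw [h3] at h2
        refine h2.congr_fun fun k => ?_
        rw [mul_pow, pow_succ, mul_assoc]
    rw [← hsum.tsum_eq]
    exact tsum_congr fun k => integral_const_mul μ _ _
  have hd2 : DifferentiableOn ℂ (fun z => ∑' k, (z - w) ^ k * a k) (ball w (d / 2)) := by
    refine differentiableOn_tsum_of_summable_norm
      (u := fun k : ℕ => (1 / 2 : ℝ) ^ k * (d⁻¹ * B * V)) ?_ (fun k => by fun_prop) isOpen_ball ?_
    · exact (summable_geometric_of_lt_one (by norm_num) (by norm_num)).mul_right _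
    · intro k z hz
      rw [mem_ball, dist_eq_norm] at hz
      rw [norm_mul, norm_pow]
      have h1 : ‖z - w‖ ^ k ≤ (d / 2) ^ k := pow_le_pow_left₀ (norm_nonneg _) hz.le k
      calc ‖z - w‖ ^ k * ‖a k‖ ≤ (d / 2) ^ k * ((d⁻¹) ^ (k + 1) * B * V) :=
            mul_le_mul h1 (hab k) (norm_nonneg _) (by positivity)
        _ = _ := by
            rw [div_pow, one_div, inv_pow, pow_succ, inv_pow]
            field_simp
  have hwb : w ∈ ball w (d / 2) := mem_ball_self (by positivity)
  have hd3 := (hd2.differentiableAt (isOpen_ball.mem_nhds hwb))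
  refine (hd3.congr_of_eventuallyEq ?_).differentiableWithinAt
  filter_upwards [isOpen_ball.mem_nhds hwb] with z hz
  exact hser z hz

/-- Boundedness of the `log⁺` means for atoms implies the one for measures. -/
theorem measures_of_atoms {Γ : Set ℂ} {φ : ℂ → ℂ} (hΓ : IsCompact Γ)
    (hφ : DifferentiableOn ℂ φ (ball 0 1)) (hdisj : Disjoint (φ '' ball 0 1) Γ)
    (hUB : ∃ C : ℝ, ∀ (J : Finset ℕ) (ζ c : ℕ → ℂ), (∀ j ∈ J, ζ j ∈ Γ) → ∑ j ∈ J, ‖c j‖ ≤ 1 →
      ∀ r, 1 / 2 ≤ r → r < 1 →
        Real.circleAverage (fun z => Real.posLog ‖∑ j ∈ J, c j * (ζ j - φ z)⁻¹‖) 0 r ≤ C)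
    (μ : ComplexMeasure Γ) :
    ∃ C : ℝ, ∀ r, 1 / 2 ≤ r → r < 1 →
      Real.circleAverage (fun z => Real.posLog ‖VectorMeasure.integral μ
        (fun ζ : Γ => ((ζ : ℂ) - φ z)⁻¹) (ContinuousLinearMap.mul ℝ ℂ)‖) 0 r ≤ C := by
  classical
  obtain ⟨C, hC⟩ := hUB
  have := isFiniteMeasure_variation μ
  rcases isEmpty_or_nonempty Γ with hemp | hnon
  · refine ⟨0, fun r _ _ => le_of_eq ?_⟩
    have h0 : ∀ z : ℂ, VectorMeasure.integral μ (fun ζ : Γ => ((ζ : ℂ) - φ z)⁻¹)
        (ContinuousLinearMap.mul ℝ ℂ) = 0 := fun z => VectorMeasure.integral_of_isEmpty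
    simp only [h0, norm_zero, Real.posLog_zero]
    exact Real.circleAverage_const 0 0 r
  obtain ⟨x₀⟩ := id hnon
  set V : ℝ := μ.variation.real univ + 1 with hV
  have hV1 : 0 < V := by
    have : 0 ≤ μ.variation.real univ := measureReal_nonneg
    linarith
  set s : ℕ → SimpleFunc Γ Γ := fun n =>
    SimpleFunc.approxOn (id : Γ → Γ) measurable_id univ x₀ (mem_univ _) n with hs
  have hslim : ∀ ζ : Γ, Tendsto (fun n => s n ζ) atTop (𝓝 ζ) := fun ζ =>
    SimpleFunc.tendsto_approxOn measurable_id (mem_univ x₀) (by simp)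
  set S : ℕ → ℂ → ℂ := fun n w => ∑ y ∈ (s n).range, ((y : ℂ) - w)⁻¹ * μ ((s n) ⁻¹' {y}) with hS
  have hSint : ∀ n w, VectorMeasure.integral μ (fun ζ : Γ => (((s n ζ : Γ) : ℂ) - w)⁻¹)
      (ContinuousLinearMap.mul ℝ ℂ) = S n w := fun n w =>
    integral_comp_simpleFunc μ (s n) (fun y => ((y : ℂ) - w)⁻¹)
  -- a bound for the approximations
  have hbd : ∀ n r, 1 / 2 ≤ r → r < 1 →
      Real.circleAverage (fun z => Real.posLog ‖S n (φ z)‖) 0 r ≤ Real.posLog V + C := by
    intro n r hr0 hr1
    obtain ⟨N, f, hf⟩ := exists_enum (s n).range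
    have hrpos : 0 < r := by linarith
    have hsph : sphere (0 : ℂ) |r| ⊆ ball 0 1 := by
      rw [abs_of_pos hrpos]
      exact sphere_subset_closedBall.trans (closedBall_subset_ball hr1)
    have h1 : ∀ w, S n w = V * ∑ j ∈ Finset.range N,
        (μ ((s n) ⁻¹' {f j}) / V) * (((f j : Γ) : ℂ) - w)⁻¹ := by
      intro w
      rw [hf (fun y => (μ ((s n) ⁻¹' {y}) / V) * ((y : ℂ) - w)⁻¹), Finset.mul_sum]
      refine Finset.sum_congr rfl fun y _ => ?_
      have : (V : ℂ) ≠ 0 := by exact_mod_cast hV1.ne'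
      field_simp
    have h2 : ∑ j ∈ Finset.range N, ‖μ ((s n) ⁻¹' {f j}) / (V : ℂ)‖ ≤ 1 := by
      rw [hf (fun y => ‖μ ((s n) ⁻¹' {y}) / (V : ℂ)‖)]
      simp only [norm_div, Complex.norm_real, Real.norm_of_nonneg hV1.le]
      rw [← Finset.sum_div, div_le_one hV1]
      have := sum_norm_le μ (s n)
      linarith
    have h3 := hC (Finset.range N) (fun j => ((f j : Γ) : ℂ)) (fun j => μ ((s n) ⁻¹' {f j}) / V)
      (fun j _ => (f j).2) h2 r hr0 hr1
    have hcont : ContinuousOn (fun z => ∑ j ∈ Finset.range N,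
        (μ ((s n) ⁻¹' {f j}) / V) * (((f j : Γ) : ℂ) - φ z)⁻¹) (ball 0 1) := by
      refine continuousOn_finsetSum _ fun j _ => ?_
      refine continuousOn_const.mul (ContinuousOn.inv₀ (continuousOn_const.sub hφ.continuousOn) ?_)
      intro z hz h
      rw [sub_eq_zero] at h
      exact hdisj.notMem_of_mem_left ⟨z, hz, rfl⟩ (h ▸ (f j).2)
    have hci : CircleIntegrable (fun z => Real.posLog ‖∑ j ∈ Finset.range N,
        (μ ((s n) ⁻¹' {f j}) / V) * (((f j : Γ) : ℂ) - φ z)⁻¹‖) 0 r :=
      ContinuousOn.circleIntegrable'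
        (continuous_posLog.comp_continuousOn (hcont.mono hsph).norm)
    have hci2 : CircleIntegrable (fun z => Real.posLog ‖S n (φ z)‖) 0 r := by
      refine ContinuousOn.circleIntegrable' (continuous_posLog.comp_continuousOn ?_)
      refine ContinuousOn.norm ?_
      have : (fun z => S n (φ z)) = fun z => (V : ℂ) * ∑ j ∈ Finset.range N,
        (μ ((s n) ⁻¹' {f j}) / V) * (((f j : Γ) : ℂ) - φ z)⁻¹ := funext fun z => h1 (φ z)
      rw [this]
      exact continuousOn_const.mul (hcont.mono hsph)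
    have hci3 : CircleIntegrable (fun _ : ℂ => Real.posLog V) 0 r :=
      circleIntegrable_const _ _ _
    calc Real.circleAverage (fun z => Real.posLog ‖S n (φ z)‖) 0 r
        ≤ Real.circleAverage (fun z => Real.posLog V + Real.posLog ‖∑ j ∈ Finset.range N,
          (μ ((s n) ⁻¹' {f j}) / V) * (((f j : Γ) : ℂ) - φ z)⁻¹‖) 0 r := by
          refine Real.circleAverage_mono hci2 (hci3.add hci) fun z _ => ?_
          rw [h1 (φ z), norm_mul, Complex.norm_real, Real.norm_of_nonneg hV1.le]
          exact Real.posLog_mul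
      _ = Real.posLog V + Real.circleAverage (fun z => Real.posLog ‖∑ j ∈ Finset.range N,
          (μ ((s n) ⁻¹' {f j}) / V) * (((f j : Γ) : ℂ) - φ z)⁻¹‖) 0 r := by
          rw [Real.circleAverage_fun_add hci3 hci, Real.circleAverage_const]
      _ ≤ Real.posLog V + C := by linarith
  -- passage to the limit
  refine ⟨Real.posLog V + C, fun r hr0 hr1 => ?_⟩
  have hrpos : 0 < r := by linarith
  obtain ⟨δ, hδ, hdist⟩ := exists_dist hΓ hφ.continuousOn hdisj hr1
  have hcirc : ∀ θ, ‖circleMap 0 r θ‖ ≤ r := fun θ => by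
    rw [norm_circleMap_zero, abs_of_pos hrpos]
  have hcircb : ∀ θ, circleMap 0 r θ ∈ ball (0 : ℂ) 1 := fun θ => by
    rw [mem_ball_zero_iff]; exact (hcirc θ).trans_lt hr1
  have hptw : ∀ θ, Tendsto (fun n => S n (φ (circleMap 0 r θ))) atTop
      (𝓝 (VectorMeasure.integral μ (fun ζ : Γ => ((ζ : ℂ) - φ (circleMap 0 r θ))⁻¹)
        (ContinuousLinearMap.mul ℝ ℂ))) := by
    intro θ
    simp only [← hSint]
    refine VectorMeasure.tendsto_integral_of_dominated_convergence (fun _ => δ⁻¹) ?_ ?_ ?_ ?_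
    · intro n
      refine Measurable.aestronglyMeasurable ?_
      exact ((measurable_subtype_coe.comp (s n).measurable).sub_const _).inv
    · exact integrable_const _
    · intro n
      refine Eventually.of_forall fun ζ => ?_
      rw [norm_inv]
      exact inv_anti₀ hδ (hdist _ (hcirc θ) _ (s n ζ).2)
    · refine Eventually.of_forall fun ζ => ?_
      refine Tendsto.inv₀ ?_ ?_
      · exact ((continuous_subtype_val.tendsto ζ).comp (hslim ζ)).sub_const _
      · exact norm_pos_iff.1 (hδ.trans_le (hdist _ (hcirc θ) _ ζ.2))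
  have hSbd : ∀ n θ, ‖S n (φ (circleMap 0 r θ))‖ ≤ δ⁻¹ * V := by
    intro n θ
    rw [hS]
    refine (norm_sum_le _ _).trans ?_
    calc ∑ y ∈ (s n).range, ‖((y : ℂ) - φ (circleMap 0 r θ))⁻¹ * μ ((s n) ⁻¹' {y})‖
        ≤ ∑ y ∈ (s n).range, δ⁻¹ * ‖μ ((s n) ⁻¹' {y})‖ := by
          refine Finset.sum_le_sum fun y _ => ?_
          rw [norm_mul, norm_inv]
          exact mul_le_mul_of_nonneg_right (inv_anti₀ hδ (hdist _ (hcirc θ) _ y.2)) (norm_nonneg _)
      _ ≤ δ⁻¹ * V := by
          rw [← Finset.mul_sum]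
          refine mul_le_mul_of_nonneg_left ?_ (by positivity)
          have := sum_norm_le μ (s n)
          linarith
  have hScont : ∀ n, Continuous fun θ => S n (φ (circleMap 0 r θ)) := by
    intro n
    have h1 : Continuous fun θ => φ (circleMap 0 r θ) :=
      hφ.continuousOn.comp_continuous (continuous_circleMap 0 r) hcircb
    rw [hS]
    refine continuous_finsetSum _ fun y _ => ?_
    refine (Continuous.inv₀ (continuous_const.sub h1) fun θ => ?_).mul continuous_const
    exact norm_pos_iff.1 (hδ.trans_le (hdist _ (hcirc θ) _ y.2))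
  have hlim : Tendsto (fun n => Real.circleAverage (fun z => Real.posLog ‖S n (φ z)‖) 0 r) atTop
      (𝓝 (Real.circleAverage (fun z => Real.posLog ‖VectorMeasure.integral μ
        (fun ζ : Γ => ((ζ : ℂ) - φ z)⁻¹) (ContinuousLinearMap.mul ℝ ℂ)‖) 0 r)) := by
    simp only [Real.circleAverage_def]
    refine Tendsto.const_smul ?_ _
    refine intervalIntegral.tendsto_integral_filter_of_dominated_convergence
      (fun _ => Real.posLog (δ⁻¹ * V)) ?_ ?_ ?_ ?_
    · refine Eventually.of_forall fun n => ?_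
      exact (continuous_posLog.comp (hScont n).norm).aestronglyMeasurable
    · refine Eventually.of_forall fun n => Eventually.of_forall fun θ _ => ?_
      rw [Real.norm_of_nonneg Real.posLog_nonneg]
      exact Real.posLog_le_posLog (norm_nonneg _) (hSbd n θ)
    · exact intervalIntegrable_const
    · refine Eventually.of_forall fun θ _ => ?_
      exact (continuous_posLog.tendsto _).comp (hptw θ).norm
  exact le_of_tendsto' hlim fun n => hbd n r hr0 hr1

/-- Discrete complex measures. -/
theorem exists_discrete {Γ : Set ℂ} (hΓ : IsCompact Γ) {c ζ : ℕ → ℂ}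
    (hc : Summable fun n => ‖c n‖) (hζ : ∀ n, ζ n ∈ Γ) :
    ∃ μ : ComplexMeasure Γ, ∀ w, w ∉ Γ → VectorMeasure.integral μ
      (fun ζ : Γ => ((ζ : ℂ) - w)⁻¹) (ContinuousLinearMap.mul ℝ ℂ) = ∑' n, c n / (ζ n - w) := by
  classical
  have hci : Integrable c (Measure.count : Measure ℕ) := by
    rw [integrable_count_iff]
    exact hc
  set ν : ComplexMeasure ℕ := (Measure.count : Measure ℕ).withDensityᵥ c with hν
  have hνfin := isFiniteMeasure_variation ν
  have hνn : ∀ n, ν {n} = c n := by
    intro n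
    rw [hν, withDensityᵥ_apply hci (measurableSet_singleton n)]
    simp
  set e : ℕ → Γ := fun n => ⟨ζ n, hζ n⟩ with he
  have hem : Measurable e := measurable_of_countable _
  refine ⟨ν.map e, fun w hw => ?_⟩
  obtain ⟨d, hd, hball⟩ := Metric.isOpen_iff.1 hΓ.isClosed.isOpen_compl w hw
  have hdist : ∀ ζ : Γ, d ≤ ‖(ζ : ℂ) - w‖ := by
    intro ζ
    by_contra hlt
    push Not at hlt
    exact hball (show (ζ : ℂ) ∈ ball w d by rwa [mem_ball, dist_eq_norm]) ζ.2
  have hFm : Measurable fun ζ : Γ => ((ζ : ℂ) - w)⁻¹ := (measurable_subtype_coe.sub_const _).inv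
  have hFb : ∀ ζ : Γ, ‖((ζ : ℂ) - w)⁻¹‖ ≤ d⁻¹ := fun ζ => by
    rw [norm_inv]; exact inv_anti₀ hd (hdist ζ)
  rw [VectorMeasure.integral_map hem hFm.aestronglyMeasurable]
  swap
  · exact Integrable.of_bound (hFm.comp hem).aestronglyMeasurable d⁻¹
      (Eventually.of_forall fun n => hFb (e n))
  have hsum : HasSum (fun n : ℕ => VectorMeasure.integral ν
      (fun a : ℕ => ({n} : Set ℕ).indicator (fun a => (((e a : Γ) : ℂ) - w)⁻¹) a)
        (ContinuousLinearMap.mul ℝ ℂ))
      (VectorMeasure.integral ν (fun a : ℕ => (((e a : Γ) : ℂ) - w)⁻¹)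
        (ContinuousLinearMap.mul ℝ ℂ)) := by
    have hone : ∀ a : ℕ, (fun n : ℕ => ({n} : Set ℕ).indicator (fun _ => d⁻¹) a) =
        Pi.single a d⁻¹ := by
      intro a
      funext n
      by_cases h : n = a
      · subst h; simp
      · rw [Pi.single_eq_of_ne h, indicator_of_notMem]
        simpa using fun h' => h h'.symm
    refine VectorMeasure.hasSum_integral_of_dominated_convergence
      (fun n a => ({n} : Set ℕ).indicator (fun _ => d⁻¹) a) ?_ ?_ ?_ ?_ ?_
    · intro n
      exact (measurable_of_countable _).aestronglyMeasurable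
    · intro n
      refine Eventually.of_forall fun a => ?_
      by_cases h : a ∈ ({n} : Set ℕ)
      · rw [indicator_of_mem h, indicator_of_mem h]; exact hFb _
      · rw [indicator_of_notMem h, indicator_of_notMem h, norm_zero]
    · refine Eventually.of_forall fun a => ?_
      rw [hone a]
      exact (hasSum_pi_single a d⁻¹).summable
    · refine (integrable_const d⁻¹).congr (Eventually.of_forall fun a => ?_)
      simp only
      rw [hone a, tsum_pi_single]
    · refine Eventually.of_forall fun a => ?_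
      have h1 : (fun n : ℕ => ({n} : Set ℕ).indicator (fun a => (((e a : Γ) : ℂ) - w)⁻¹) a) =
          Pi.single a ((((e a : Γ) : ℂ) - w)⁻¹) := by
        funext n
        by_cases h : n = a
        · subst h; simp
        · rw [Pi.single_eq_of_ne h, indicator_of_notMem]
          simpa using fun h' => h h'.symm
      rw [h1]
      exact hasSum_pi_single a _
  rw [← hsum.tsum_eq]
  refine tsum_congr fun n => ?_
  rw [VectorMeasure.integral_indicator (measurableSet_singleton n),
    VectorMeasure.integral_singleton, hνn, ContinuousLinearMap.mul_apply', mul_comm,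
    ← div_eq_mul_inv]

end Pool.Agent.Helper36.CN
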