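import Pool.Agent.Helper36.CauchyN.Necessity
import Pool.Agent.Helper36.CauchyN.Fact
import Pool.Agent.Helper36.CauchyN.Meas

/-! Assembly of the characterization of property (N). -/

set_option autoImplicit false

open Filter Topology Metric Set Real MeasureTheory

namespace Pool.Agent.Helper36.CN

/-- The union of the bounded components of the complement. -/
theorem frontier_bounded_subset {Γ : Set ℂ} (hΓ : IsClosed Γ) :
    frontier {z | z ∉ Γ ∧ Bornology.IsBounded (connectedComponentIn Γᶜ z)} ⊆ Γ := by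
  intro z hz
  by_contra hzΓ
  have hopen : IsOpen (connectedComponentIn Γᶜ z) := hΓ.isOpen_compl.connectedComponentIn
  have hmem : z ∈ connectedComponentIn Γᶜ z := mem_connectedComponentIn hzΓ
  obtain ⟨w, hw1, hw2⟩ := mem_closure_iff.1 (frontier_subset_closure hz) _ hopen hmem
  have heq : connectedComponentIn Γᶜ z = connectedComponentIn Γᶜ w :=
    connectedComponentIn_eq hw1
  have hsub : connectedComponentIn Γᶜ z ⊆
      {z | z ∉ Γ ∧ Bornology.IsBounded (connectedComponentIn Γᶜ z)} := by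
    intro v hv
    refine ⟨connectedComponentIn_subset _ _ hv, ?_⟩
    rw [← connectedComponentIn_eq hv, heq]
    exact hw2.2
  have : z ∈ interior {z | z ∉ Γ ∧ Bornology.IsBounded (connectedComponentIn Γᶜ z)} :=
    mem_interior.2 ⟨_, hsub, hopen, hmem⟩
  exact hz.2 this

/-- The characterization, with the uniform bound for atoms as a hypothesis. -/
theorem characterization_of_atoms {Γ : Set ℂ} {φ : ℂ → ℂ} (hΓ : IsCompact Γ) (hne : Γ.Nonempty)
    (hφ : DifferentiableOn ℂ φ (ball 0 1)) (hinj : InjOn φ (ball 0 1))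
    (hdisj : Disjoint (φ '' ball 0 1) Γ) (hfr : frontier (φ '' ball 0 1) ⊆ Γ)
    (hUB : (∫⁻ θ in Ico 0 (2 * π), ⨆ r ∈ Ico (0:ℝ) 1,
        ENNReal.ofReal (Real.log (‖deriv φ (circleMap 0 r θ)‖⁻¹)) ≠ ⊤) →
      ∃ C : ℝ, ∀ (J : Finset ℕ) (ζ c : ℕ → ℂ), (∀ j ∈ J, ζ j ∈ Γ) → ∑ j ∈ J, ‖c j‖ ≤ 1 →
        ∀ r, 1 / 2 ≤ r → r < 1 →
          Real.circleAverage (fun z => Real.posLog ‖∑ j ∈ J, c j * (ζ j - φ z)⁻¹‖) 0 r ≤ C) :
    (∀ μ : ComplexMeasure Γ, ∃ g h : ℂ → ℂ, DifferentiableOn ℂ g (φ '' ball 0 1) ∧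
      DifferentiableOn ℂ h (φ '' ball 0 1) ∧
      (∃ M : ℝ, ∀ z ∈ φ '' ball 0 1, ‖g z‖ ≤ M ∧ ‖h z‖ ≤ M) ∧ (∃ z ∈ φ '' ball 0 1, h z ≠ 0) ∧
      ∀ z ∈ φ '' ball 0 1, VectorMeasure.integral μ (fun ζ : Γ => ((ζ : ℂ) - z)⁻¹)
        (ContinuousLinearMap.mul ℝ ℂ) * h z = g z) ↔
    ∫⁻ θ in Ico 0 (2 * π), ⨆ r ∈ Ico (0:ℝ) 1,
      ENNReal.ofReal (Real.log (‖deriv φ (r * Complex.exp (θ * Complex.I))‖⁻¹)) < ⊤ := by
  constructor
  · intro hN
    refine necessity hΓ hne hφ hinj hdisj hfr fun c ζ hc hζ => ?_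
    obtain ⟨μ, hμ⟩ := exists_discrete hΓ hc hζ
    obtain ⟨g, h, hg, hh, hb, hnz, heq⟩ := hN μ
    refine ⟨g, h, hg, hh, hb, hnz, fun z hz => ?_⟩
    rw [← hμ z (hdisj.notMem_of_mem_left hz)]
    exact heq z hz
  · intro hfin μ
    have hC := hUB (by simpa [circleMap] using hfin.ne)
    obtain ⟨C, hC'⟩ := measures_of_atoms hΓ hφ hdisj hC μ
    set G : ℂ → ℂ := fun z => VectorMeasure.integral μ (fun ζ : Γ => ((ζ : ℂ) - φ z)⁻¹)
        (ContinuousLinearMap.mul ℝ ℂ) with hG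
    have hGd : DifferentiableOn ℂ G (ball 0 1) :=
      (differentiableOn_cauchy hΓ μ).comp hφ fun z hz =>
        hdisj.notMem_of_mem_left (mem_image_of_mem φ hz)
    obtain ⟨g, h, hg, hh, hb, h0, heq⟩ := factorization hGd hC'
    have hinvd := differentiableOn_inv hφ hinj
    have hmaps : MapsTo (inv φ) (φ '' ball 0 1) (ball 0 1) := fun v hv => inv_mem hv
    refine ⟨fun v => g (inv φ v), fun v => h (inv φ v), hg.comp hinvd hmaps,
      hh.comp hinvd hmaps, ⟨1, fun z hz => hb _ (hmaps hz)⟩, ⟨φ 0, ?_, ?_⟩, fun z hz => ?_⟩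
    · exact mem_image_of_mem φ (mem_ball_self one_pos)
    · simp only
      rw [inv_apply hinj (mem_ball_self one_pos)]
      exact h0
    · have := heq (inv φ z) (hmaps hz)
      simp only [hG] at this
      rw [apply_inv hz] at this
      exact this

end Pool.Agent.Helper36.CN
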