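import Pool.Agent.Helper36.CauchyN.Count

/-! Necessity: if all Cauchy sums are of bounded type, the radial maximal function of
`log⁺ (1 / |φ'|)` is integrable. -/

set_option autoImplicit false

open Filter Topology Metric Set Real MeasureTheory

namespace Pool.Agent.Helper36.CN

variable {φ : ℂ → ℂ} {Γ : Set ℂ}

/-- `log⁺ (1/|φ'|)` -/
noncomputable def DD (φ : ℂ → ℂ) (z : ℂ) : ℝ := posLog (‖deriv φ z‖⁻¹)

theorem DD_continuousOn (hφ : DifferentiableOn ℂ φ (ball 0 1)) (hinj : InjOn φ (ball 0 1)) :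
    ContinuousOn (DD φ) (ball 0 1) := by
  refine continuous_posLog.comp_continuousOn ?_
  refine ContinuousOn.inv₀ ((hφ.deriv isOpen_ball).continuousOn.norm) ?_
  intro z hz
  exact norm_ne_zero_iff.2 (deriv_ne_zero hφ hinj hz)

theorem term_lower {w ζ : ℂ} {q : ℂ → ℂ} {i g m : ℕ} (hi : 14 ≤ i) (hw : w ∈ box g m)
    (hφ : DifferentiableOn ℂ φ (ball 0 1)) (hinj : InjOn φ (ball 0 1))
    (hD : 2 ^ i < DD φ w) (hqc : ∀ z ∈ ball (0 : ℂ) 1, √2 - 1 ≤ ‖q z + 1‖)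
    (hqz : ∀ z ∈ ball (0 : ℂ) 1, 0 < ‖ζ - φ z‖ ∧
        ‖ζ - φ z‖ ≤ (1 - ‖w‖ ^ 2) * ‖deriv φ w‖ * ‖q z‖ ^ 2) {z : ℂ} (hz : z ∈ ball (0 : ℂ) 1) :
    2 ^ i / 2 - 2 * Hf q z ≤ posLog ((1 / 2) ^ (i + 1) * (1 / 2) ^ g / ‖ζ - φ z‖) := by
  obtain ⟨h1, h2⟩ := hqz z hz
  have hwb := box_sub_ball g m hw
  have hd : 0 < ‖deriv φ w‖ := norm_pos_iff.2 (deriv_ne_zero hφ hinj hwb)
  have hq0 : 0 < ‖q z‖ := by
    rcases (norm_nonneg (q z)).eq_or_lt with h | h
    · rw [← h] at h2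
      have h3 : (1 - ‖w‖ ^ 2) * ‖deriv φ w‖ * (0 : ℝ) ^ 2 = 0 := by ring
      rw [h3] at h2
      linarith
    · exact h
  have hlogd : log ‖deriv φ w‖ < -(2 : ℝ) ^ i := by
    have h3 : (2 : ℝ) ^ i < max 0 (log (‖deriv φ w‖⁻¹)) := hD
    have h4 : (0 : ℝ) < 2 ^ i := by positivity
    rcases lt_max_iff.1 h3 with h5 | h5
    · linarith
    · rw [log_inv] at h5; linarith
  have hwn : 1 - ‖w‖ ^ 2 ≤ 2 * (1 / 2) ^ g := by
    have h3 := (box_prop hw).1
    have h4 : ‖w‖ < 1 := by simpa using hwb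
    have h5 : 1 - ‖w‖ ^ 2 = (1 - ‖w‖) * (1 + ‖w‖) := by ring
    rw [h5]
    calc (1 - ‖w‖) * (1 + ‖w‖) ≤ ((1 / 2) ^ g) * 2 := by
          gcongr
          · linarith
          · linarith
      _ = 2 * (1 / 2) ^ g := by ring
  have hle : ‖ζ - φ z‖ ≤ 2 * (1 / 2) ^ g * ‖deriv φ w‖ * ‖q z‖ ^ 2 :=
    h2.trans (by gcongr)
  have hlog : log ‖ζ - φ z‖ ≤ log 2 + g * log (1 / 2) + log ‖deriv φ w‖ + 2 * log ‖q z‖ := by
    have h3 := log_le_log h1 hle
    rw [log_mul (by positivity) (by positivity), log_mul (by positivity) (by positivity),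
      log_mul (by positivity) (by positivity), log_pow, log_pow] at h3
    push_cast at h3
    linarith
  have hq := log_norm_le (hqc z hz) hq0
  have hl2 : log 2 ≤ 1 := by
    have := Real.log_two_lt_d9; linarith
  have hl2p : 0 < log 2 := Real.log_pos (by norm_num)
  have hp := two_pow_ge hi
  have hmain : (2 : ℝ) ^ i / 2 - 2 * Hf q z ≤ log ((1 / 2) ^ (i + 1) * (1 / 2) ^ g / ‖ζ - φ z‖) := by
    rw [log_div (by positivity) h1.ne', log_mul (by positivity) (by positivity), log_pow, log_pow]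
    have e1 : log (1 / 2 : ℝ) = - log 2 := by rw [one_div, log_inv]
    rw [e1] at hlog ⊢
    push_cast
    have h5 : ((i : ℝ) + 3) * log 2 ≤ ((i : ℝ) + 3) * 1 := by gcongr
    nlinarith
  exact hmain.trans (le_max_right _ _)

theorem count_bound (hΓ : IsCompact Γ) (hφ : DifferentiableOn ℂ φ (ball 0 1))
    (hinj : InjOn φ (ball 0 1)) (hdisj : Disjoint (φ '' ball 0 1) Γ)
    (w : ℕ → ℕ → ℂ) (hw : ∀ g m, w g m ∈ box g m) (ζ : ℕ → ℕ → ℂ) (hζ : ∀ g m, ζ g m ∈ Γ)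
    (q : ℕ → ℕ → ℂ → ℂ) (hq : ∀ g m, DifferentiableOn ℂ (q g m) (ball 0 1))
    (hqw : ∀ g m, q g m (w g m) = 1)
    (hqc : ∀ g m, ∀ z ∈ ball (0 : ℂ) 1, √2 - 1 ≤ ‖q g m z + 1‖)
    (hqz : ∀ g m, ∀ z ∈ ball (0 : ℂ) 1, 0 < ‖ζ g m - φ z‖ ∧
        ‖ζ g m - φ z‖ ≤ (1 - ‖w g m‖ ^ 2) * ‖deriv φ (w g m)‖ * ‖q g m z‖ ^ 2)
    {B : ℝ}
    (hB : ∀ c : ℕ × ℕ × ℕ → ℂ, (Summable fun j => ‖c j‖) → ∑' j, ‖c j‖ ≤ 1 → ∀ r : ℝ, 1 / 2 ≤ r →
      r < 1 → circleAverage (fun z => posLog ‖KS φ (fun j => ζ j.2.1 j.2.2) c z‖) 0 r ≤ B)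
    (J : Finset (ℕ × ℕ × ℕ)) (hJ : ∀ j ∈ J, Valid (fun g m => DD φ (w g m)) j) :
    ∑ j ∈ J, 2 ^ j.1 * (2 * π / 2 ^ j.2.1) ≤ 32 * π * B := by
  classical
  -- the radius
  set G := J.sup fun j => j.2.1 with hG
  have hGle : ∀ j ∈ J, j.2.1 ≤ G := fun j hj => Finset.le_sup (f := fun j => j.2.1) hj
  set r : ℝ := 1 - (1 / 2) ^ (G + 2) with hr
  have hr2 : r < 1 := by
    have : (0 : ℝ) < (1 / 2) ^ (G + 2) := by positivity
    linarith
  have hr1 : 3 / 4 ≤ r := by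
    have : (1 / 2 : ℝ) ^ (G + 2) ≤ (1 / 2) ^ 2 :=
      pow_le_pow_of_le_one (by norm_num) (by norm_num) (by omega)
    norm_num at this
    linarith
  have hr0 : 0 < r := by linarith
  obtain ⟨R, hRi, hRB, hR0, hRj⟩ := exists_dominant (fun j : ℕ × ℕ × ℕ => ζ j.2.1 j.2.2) hΓ
    hφ.continuousOn hdisj (fun j => hζ _ _) hB J
    (fun j => (1 / 2 : ℝ) ^ (j.1 + 1) * (1 / 2) ^ j.2.1) (fun j _ => by positivity) (mass_le hJ)
    (r := r) (by linarith) hr2
  have hsph : ∀ θ, circleMap 0 r θ ∈ ball (0 : ℂ) 1 := by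
    intro θ
    rw [mem_ball_zero_iff, norm_circleMap_zero, abs_of_pos hr0]
    exact hr2
  -- the lower function
  let f : ℕ × ℕ × ℕ → ℝ → ℝ := fun j θ =>
    2 ^ j.1 / 4 - 2 * Hf (q j.2.1 j.2.2) (circleMap 0 r θ)
  have hHc : ∀ g m, Continuous fun θ => Hf (q g m) (circleMap 0 r θ) := fun g m =>
    (Hf_continuousOn (hq g m) (hqc g m)).comp_continuous (continuous_circleMap 0 r) hsph
  have hfc : ∀ j, Continuous (f j) := fun j => continuous_const.sub ((hHc _ _).const_mul 2)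
  have hpt : ∀ θ ∈ Ico (0 : ℝ) (2 * π),
      ∑ j ∈ J, (arc j.2.1 j.2.2).indicator (f j) θ ≤ R (circleMap 0 r θ) := by
    intro θ hθ
    have e1 : ∑ j ∈ J, (arc j.2.1 j.2.2).indicator (f j) θ
        = ∑ j ∈ J with θ ∈ arc j.2.1 j.2.2, f j θ := by
      rw [Finset.sum_filter]
      refine Finset.sum_congr rfl fun j _ => ?_
      rw [indicator_apply]
    rw [e1]
    rcases (J.filter fun j => θ ∈ arc j.2.1 j.2.2).eq_empty_or_nonempty with he | hne
    · rw [he, Finset.sum_empty]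
      exact hR0 _ (hsph θ)
    · obtain ⟨j₀, hj₀, hmax⟩ := Finset.exists_max_image _ (fun j : ℕ × ℕ × ℕ => j.1) hne
      rw [Finset.mem_filter] at hj₀
      have h1 := sum_two_pow hJ hθ.1 (I := j₀.1) fun j hj hθj =>
        hmax j (Finset.mem_filter.2 ⟨hj, hθj⟩)
      have h2 : ∑ j ∈ J with θ ∈ arc j.2.1 j.2.2, f j θ
          = (∑ j ∈ J with θ ∈ arc j.2.1 j.2.2, (2 : ℝ) ^ j.1) / 4
            - 2 * ∑ j ∈ J with θ ∈ arc j.2.1 j.2.2, Hf (q j.2.1 j.2.2) (circleMap 0 r θ) := by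
        rw [Finset.sum_div, Finset.mul_sum, ← Finset.sum_sub_distrib]
      have h3 : Hf (q j₀.2.1 j₀.2.2) (circleMap 0 r θ)
          ≤ ∑ j ∈ J with θ ∈ arc j.2.1 j.2.2, Hf (q j.2.1 j.2.2) (circleMap 0 r θ) :=
        Finset.single_le_sum (f := fun j : ℕ × ℕ × ℕ => Hf (q j.2.1 j.2.2) (circleMap 0 r θ))
          (fun j _ => Hf_nonneg (hqc _ _ _ (hsph θ))) (Finset.mem_filter.2 hj₀)
      have h4 := term_lower (hJ j₀ hj₀.1).1 (hw _ _) hφ hinj (hJ j₀ hj₀.1).2.2.1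
        (hqc _ _) (hqz _ _) (hsph θ)
      have h5 := hRj _ (hsph θ) j₀ hj₀.1
      rw [h2]
      linarith
  -- integrate
  have hRint : IntegrableOn (fun θ => R (circleMap 0 r θ)) (Ico 0 (2 * π)) := by
    have h1 := hRi
    unfold CircleIntegrable at h1
    rw [intervalIntegrable_iff_integrableOn_Icc_of_le (by positivity)] at h1
    exact h1.mono_set Ico_subset_Icc_self
  have hint : IntegrableOn (fun θ => ∑ j ∈ J, (arc j.2.1 j.2.2).indicator (f j) θ)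
      (Ico 0 (2 * π)) := by
    refine integrable_finsetSum _ fun j _ => ?_
    exact (((hfc j).integrableOn_Icc).mono_set Ico_subset_Icc_self).indicator
      (measurableSet_arc _ _)
  have h1 := setIntegral_mono_on hint hRint measurableSet_Ico hpt
  rw [integral_arcs (fun j hj => (hJ j hj).2.1) f fun j _ => hfc j] at h1
  have h2 : ∫ θ in Ico 0 (2 * π), R (circleMap 0 r θ) ≤ 4 * π * B := by
    have h3 := hRB
    rw [circleAverage_def, smul_eq_mul, inv_mul_le_iff₀ (by positivity),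
      intervalIntegral.integral_of_le (by positivity), ← integral_Icc_eq_integral_Ioc,
      integral_Icc_eq_integral_Ico] at h3
    linarith
  have h3 : ∑ j ∈ J, (2 ^ j.1 * (2 * π / 2 ^ j.2.1)) / 8
      ≤ ∑ j ∈ J, ∫ θ in arc j.2.1 j.2.2, f j θ := by
    refine Finset.sum_le_sum fun j hj => ?_
    obtain ⟨i, g, m⟩ := j
    have hV := hJ _ hj
    dsimp only at *
    have hmg : m < 2 ^ g := hV.2.1
    have hi : 14 ≤ i := hV.1
    have hsub : arc g m ⊆ Icc 0 (2 * π) := (arc_sub hmg).trans Ico_subset_Icc_self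
    have hgG : g ≤ G := hGle _ hj
    have hrg : 1 - (1 / 2) ^ (g + 2) ≤ r := by
      have : (1 / 2 : ℝ) ^ (G + 2) ≤ (1 / 2) ^ (g + 2) :=
        pow_le_pow_of_le_one (by norm_num) (by norm_num) (by omega)
      linarith
    have hwr : ‖w g m‖ < r := by
      have a1 := (box_prop (hw g m)).2.1
      have a2 : (1 / 2 : ℝ) ^ (g + 2) < (1 / 2) ^ (g + 1) :=
        pow_lt_pow_right_of_lt_one₀ (by norm_num) (by norm_num) (by omega)
      linarith
    have hpb := poisson_bound (hq g m) (hqc g m) (hqw g m) hr0 hr2 hwr (measurableSet_arc g m)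
      hsub (κ := 3 * 2 ^ g / 1024) (by positivity)
      (fun θ hθ => kernel_lower (hw g m) hrg hr2 hθ)
    have e1 : ∫ θ in arc g m, f (i, g, m) θ
        = (2 * π / 2 ^ g) * (2 ^ i / 4) - 2 * ∫ θ in arc g m, Hf (q g m) (circleMap 0 r θ) := by
      simp only [f]
      rw [integral_sub, integral_arc_const, integral_const_mul]
      · exact (continuous_const.integrableOn_Icc (a := 0) (b := 2 * π)).mono_set hsub
      · exact (((hHc g m).const_mul 2).integrableOn_Icc (a := 0) (b := 2 * π)).mono_set hsub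
    rw [e1]
    have e2 : 4 * π / (3 * 2 ^ g / 1024) = (2 * π / 2 ^ g) * (2048 / 3) := by
      field_simp; norm_num
    rw [e2] at hpb
    have hv : 0 < 2 * π / 2 ^ g := by positivity
    have h2i : (16384 : ℝ) ≤ 2 ^ i := by
      calc (16384 : ℝ) = 2 ^ 14 := by norm_num
        _ ≤ 2 ^ i := pow_le_pow_right₀ (by norm_num) hi
    nlinarith
  rw [← Finset.sum_div] at h3
  linarith

/-- the pointwise bound of the maximal function -/
theorem pointwise_bound (D : ℕ → ℕ → ℝ) {θ : ℝ} (h0 : 0 ≤ θ) (hθ : θ < 2 * π) {g m : ℕ}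
    (hm : θ ∈ arc g m) :
    ENNReal.ofReal (D g m) ≤ 2 ^ 14 + ∑' j : {j : ℕ × ℕ × ℕ // Valid D j},
      (arc j.1.2.1 j.1.2.2).indicator (fun _ => (2 : ENNReal) ^ j.1.1) θ := by
  classical
  by_cases hD : D g m ≤ 2 ^ 14
  · refine le_trans ?_ le_self_add
    calc ENNReal.ofReal (D g m) ≤ ENNReal.ofReal (2 ^ 14) := ENNReal.ofReal_le_ofReal hD
      _ = 2 ^ 14 := by rw [ENNReal.ofReal_pow (by norm_num)]; norm_num
  · rw [not_le] at hD
    -- the level
    have hex : ∃ I : ℕ, D g m ≤ 2 ^ (I + 1) := by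
      obtain ⟨n, hn⟩ := pow_unbounded_of_one_lt (D g m) (show (1 : ℝ) < 2 by norm_num)
      exact ⟨n, hn.le.trans (pow_le_pow_right₀ (by norm_num) (Nat.le_succ n))⟩
    set I := Nat.find hex with hI
    have hI1 : D g m ≤ 2 ^ (I + 1) := Nat.find_spec hex
    have hI2 : 2 ^ I < D g m := by
      rcases Nat.eq_zero_or_pos I with h | h
      · rw [h, pow_zero]
        calc (1 : ℝ) ≤ 2 ^ 14 := by norm_num
          _ < D g m := hD
      · obtain ⟨k, hk⟩ : ∃ k, I = k + 1 := ⟨I - 1, by omega⟩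
        have := Nat.find_min hex (m := k) (by omega)
        rw [hk]
        exact not_le.1 this
    have hI14 : 14 ≤ I := by
      by_contra hlt
      rw [not_le] at hlt
      have : (2 : ℝ) ^ (I + 1) ≤ 2 ^ 14 := pow_le_pow_right₀ (by norm_num) (by omega)
      linarith
    -- the first passages
    have hfirst : ∀ k : ℕ, 14 ≤ k → k ≤ I → ∃ g' ≤ g, Valid D (k, g', m / 2 ^ (g - g')) := by
      intro k hk1 hk2
      have hex' : ∃ g', 2 ^ k < D g' (m / 2 ^ (g - g')) := by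
        refine ⟨g, ?_⟩
        rw [Nat.sub_self, pow_zero, Nat.div_one]
        exact lt_of_le_of_lt (pow_le_pow_right₀ (by norm_num) hk2) hI2
      refine ⟨Nat.find hex', ?_, hk1, ?_, Nat.find_spec hex', ?_⟩
      · refine Nat.find_min' hex' ?_
        rw [Nat.sub_self, pow_zero, Nat.div_one]
        exact lt_of_le_of_lt (pow_le_pow_right₀ (by norm_num) hk2) hI2
      · have hle : Nat.find hex' ≤ g := by
          refine Nat.find_min' hex' ?_
          rw [Nat.sub_self, pow_zero, Nat.div_one]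
          exact lt_of_le_of_lt (pow_le_pow_right₀ (by norm_num) hk2) hI2
        have h1 := arc_descend h0 hm hle
        dsimp only
        -- an arc of generation g' containing a point of [0, 2π)
        by_contra hcon
        rw [not_lt] at hcon
        have h2 := h1.1
        have h3 : (2 : ℝ) ^ Nat.find hex' ≤ ((m / 2 ^ (g - Nat.find hex') : ℕ) : ℝ) := by
          exact_mod_cast hcon
        have h4 : 2 * π ≤ 2 * π * ((m / 2 ^ (g - Nat.find hex') : ℕ) : ℝ) / 2 ^ Nat.find hex' := by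
          rw [le_div_iff₀ (by positivity)]
          gcongr
        linarith
      · intro g'' hg''
        have h1 := Nat.find_min hex' hg''
        rw [not_lt] at h1
        dsimp only
        have hle : Nat.find hex' ≤ g := by
          refine Nat.find_min' hex' ?_
          rw [Nat.sub_self, pow_zero, Nat.div_one]
          exact lt_of_le_of_lt (pow_le_pow_right₀ (by norm_num) hk2) hI2
        have h2 : m / 2 ^ (g - Nat.find hex') / 2 ^ (Nat.find hex' - g'') = m / 2 ^ (g - g'') := by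
          rw [Nat.div_div_eq_div_mul, ← pow_add]
          congr 2
          dsimp only at hg''
          omega
        rw [h2]
        exact h1
    choose! gg hgg1 hgg2 using hfirst
    let e : ℕ → ℕ × ℕ × ℕ := fun k => (k, gg k, m / 2 ^ (g - gg k))
    have hV : ∀ k ∈ Finset.Icc 14 I, Valid D (e k) := fun k hk =>
      hgg2 k (Finset.mem_Icc.1 hk).1 (Finset.mem_Icc.1 hk).2
    let s : Finset {j : ℕ × ℕ × ℕ // Valid D j} :=
      (Finset.Icc 14 I).attach.map ⟨fun k => ⟨e k.1, hV k.1 k.2⟩, by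
        intro k k' h
        have := congrArg (fun x : {j : ℕ × ℕ × ℕ // Valid D j} => x.1.1) h
        exact Subtype.ext this⟩
    have h1 : ∑ j ∈ s, (arc j.1.2.1 j.1.2.2).indicator (fun _ => (2 : ENNReal) ^ j.1.1) θ
        = ∑ k ∈ Finset.Icc 14 I, (2 : ENNReal) ^ k := by
      simp only [s, Finset.sum_map, Function.Embedding.coeFn_mk]
      rw [← Finset.sum_attach (Finset.Icc 14 I)]
      refine Finset.sum_congr rfl fun k _ => ?_
      have hk := Finset.mem_Icc.1 k.2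
      have h2 : θ ∈ arc (gg k) (m / 2 ^ (g - gg k)) :=
        arc_descend h0 hm (hgg1 k hk.1 hk.2)
      rw [indicator_of_mem h2]
    have h2 : (2 : ENNReal) ^ 14 + ∑ k ∈ Finset.Icc 14 I, (2 : ENNReal) ^ k = 2 ^ (I + 1) := by
      have : ∀ n, (2 : ENNReal) ^ 14 + ∑ k ∈ Finset.Icc 14 (14 + n), (2 : ENNReal) ^ k
          = 2 ^ (14 + n + 1) := by
        intro n
        induction n with
        | zero => rw [add_zero, Finset.Icc_self, Finset.sum_singleton, pow_succ]; ring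
        | succ n ih =>
          rw [← add_assoc, ← Finset.insert_Icc_right_eq_Icc_add_one (by omega : 14 ≤ 14 + n + 1),
            Finset.sum_insert (by simp), add_left_comm, ih, pow_succ _ (14 + n + 1)]
          ring
      obtain ⟨n, hn⟩ := Nat.exists_eq_add_of_le hI14
      rw [hn]
      exact this n
    calc ENNReal.ofReal (D g m) ≤ ENNReal.ofReal (2 ^ (I + 1)) := ENNReal.ofReal_le_ofReal hI1
      _ = 2 ^ (I + 1) := by rw [ENNReal.ofReal_pow (by norm_num)]; norm_num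
      _ = 2 ^ 14 + ∑ j ∈ s, (arc j.1.2.1 j.1.2.2).indicator (fun _ => (2 : ENNReal) ^ j.1.1) θ := by
        rw [h1, h2]
      _ ≤ _ := by gcongr; exact ENNReal.sum_le_tsum s

theorem hN_transfer {ι : Type} (e : ℕ ≃ ι) (hΓ : IsCompact Γ)
    (hφ : DifferentiableOn ℂ φ (ball 0 1)) (hdisj : Disjoint (φ '' ball 0 1) Γ)
    (hN : ∀ (c : ℕ → ℂ) (ζ : ℕ → ℂ), (Summable fun n => ‖c n‖) → (∀ n, ζ n ∈ Γ) →
      ∃ g h : ℂ → ℂ, DifferentiableOn ℂ g (φ '' ball 0 1) ∧ DifferentiableOn ℂ h (φ '' ball 0 1) ∧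
        (∃ B : ℝ, ∀ z ∈ φ '' ball 0 1, ‖g z‖ ≤ B ∧ ‖h z‖ ≤ B) ∧
        (∃ z ∈ φ '' ball 0 1, h z ≠ 0) ∧
        ∀ z ∈ φ '' ball 0 1, (∑' n, c n / (ζ n - z)) * h z = g z)
    (ζ : ι → ℂ) (hζ : ∀ j, ζ j ∈ Γ) (c : ι → ℂ) (hc : Summable fun j => ‖c j‖) :
    ∃ C : ℝ, ∀ r : ℝ, 1 / 2 ≤ r → r < 1 →
      circleAverage (fun z => posLog ‖KS φ ζ c z‖) 0 r ≤ C := by
  obtain ⟨g, h, hg, hh, ⟨B, hgB⟩, ⟨z₀, hz₀, hne0⟩, heq⟩ := hN (fun n => c (e n))
    (fun n => ζ (e n)) (e.summable_iff.2 hc) (fun n => hζ _)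
  have hmaps : MapsTo φ (ball 0 1) (φ '' ball 0 1) := mapsTo_image _ _
  obtain ⟨x₀, hx₀, rfl⟩ := hz₀
  refine char_bound (G := KS φ ζ c) (g := fun z => g (φ z)) (h := fun z => h (φ z)) (B := B)
    (KS_continuousOn _ hΓ hφ.continuousOn hdisj hζ hc) (fun z hz => (hgB _ (hmaps hz)).1)
    (hh.comp hφ hmaps) (fun z hz => (hgB _ (hmaps hz)).2) ⟨x₀, hx₀, hne0⟩ ?_
  intro z hz
  rw [← heq _ (hmaps hz)]
  congr 1
  rw [KS]
  exact (e.tsum_eq (fun j => c j / (ζ j - φ z))).symm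

/-- **Necessity.** -/
theorem necessity (hΓ : IsCompact Γ) (hne : Γ.Nonempty) (hφ : DifferentiableOn ℂ φ (ball 0 1))
    (hinj : InjOn φ (ball 0 1)) (hdisj : Disjoint (φ '' ball 0 1) Γ)
    (hfr : frontier (φ '' ball 0 1) ⊆ Γ)
    (hN : ∀ (c : ℕ → ℂ) (ζ : ℕ → ℂ), (Summable fun n => ‖c n‖) → (∀ n, ζ n ∈ Γ) →
      ∃ g h : ℂ → ℂ, DifferentiableOn ℂ g (φ '' ball 0 1) ∧ DifferentiableOn ℂ h (φ '' ball 0 1) ∧
        (∃ B : ℝ, ∀ z ∈ φ '' ball 0 1, ‖g z‖ ≤ B ∧ ‖h z‖ ≤ B) ∧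
        (∃ z ∈ φ '' ball 0 1, h z ≠ 0) ∧
        ∀ z ∈ φ '' ball 0 1, (∑' n, c n / (ζ n - z)) * h z = g z) :
    ∫⁻ θ in Ico 0 (2 * π), ⨆ r ∈ Ico (0 : ℝ) 1,
      ENNReal.ofReal (log (‖deriv φ (r * Complex.exp (θ * Complex.I))‖⁻¹)) < ⊤ := by
  classical
  -- choice of the points
  have hw : ∀ g m, ∃ w ∈ box g m, IsMaxOn (DD φ) (box g m) w := fun g m =>
    (isCompact_box g m).exists_isMaxOn (box_nonempty g m)
      ((DD_continuousOn hφ hinj).mono (box_sub_ball g m))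
  choose w hwb hwmax using hw
  have hdata := fun g m => exists_data hΓ hne hφ hinj hdisj hfr (box_sub_ball g m (hwb g m))
  choose ζ hζ q hq hqw hqc hqz using hdata
  -- the uniform bound
  obtain ⟨e⟩ : Nonempty (ℕ ≃ ℕ × ℕ × ℕ) := ⟨(Denumerable.eqv (ℕ × ℕ × ℕ)).symm⟩
  obtain ⟨B, hB⟩ := uniform_bound (ι := ℕ × ℕ × ℕ) (fun j => ζ j.2.1 j.2.2) hΓ hφ.continuousOn
    hdisj (fun j => hζ _ _) (fun c hc => hN_transfer e hΓ hφ hdisj hN _ (fun j => hζ _ _) c hc)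
  set D : ℕ → ℕ → ℝ := fun g m => DD φ (w g m) with hDdef
  -- the pointwise bound
  have hpt : ∀ θ ∈ Ico (0 : ℝ) (2 * π), ⨆ r ∈ Ico (0 : ℝ) 1,
      ENNReal.ofReal (log (‖deriv φ (r * Complex.exp (θ * Complex.I))‖⁻¹))
      ≤ 2 ^ 14 + ∑' j : {j : ℕ × ℕ × ℕ // Valid D j},
        (arc j.1.2.1 j.1.2.2).indicator (fun _ => (2 : ENNReal) ^ j.1.1) θ := by
    intro θ hθ
    refine iSup₂_le fun r hr => ?_
    obtain ⟨g, hg1, hg2⟩ := exists_layer hr.1 hr.2
    have hm : θ ∈ arc g ⌊2 ^ g * (θ / (2 * π))⌋₊ := (mem_arc_iff hθ.1).2 rfl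
    refine le_trans ?_ (pointwise_bound D hθ.1 hθ.2 hm)
    apply ENNReal.ofReal_le_ofReal
    have h1 := hwmax g ⌊2 ^ g * (θ / (2 * π))⌋₊ (mem_box hg1 hg2 hm)
    exact (le_max_right _ _).trans h1
  have hmeas : ∀ j : {j : ℕ × ℕ × ℕ // Valid D j}, Measurable
      ((arc j.1.2.1 j.1.2.2).indicator (fun _ => (2 : ENNReal) ^ j.1.1)) := fun j =>
    measurable_const.indicator (measurableSet_arc _ _)
  have hcount : ∑' j : {j : ℕ × ℕ × ℕ // Valid D j},
      (2 : ENNReal) ^ j.1.1 * ENNReal.ofReal (2 * π / 2 ^ j.1.2.1)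
      ≤ ENNReal.ofReal (32 * π * B) := by
    rw [ENNReal.tsum_eq_iSup_sum]
    refine iSup_le fun s => ?_
    have h1 := count_bound hΓ hφ hinj hdisj w hwb ζ hζ q hq hqw hqc hqz hB
      (s.map (Function.Embedding.subtype _)) (by
        intro j hj
        obtain ⟨j', -, rfl⟩ := Finset.mem_map.1 hj
        exact j'.2)
    rw [Finset.sum_map] at h1
    have h2 : ∑ j ∈ s, (2 : ENNReal) ^ j.1.1 * ENNReal.ofReal (2 * π / 2 ^ j.1.2.1)
        = ENNReal.ofReal (∑ j ∈ s, 2 ^ j.1.1 * (2 * π / 2 ^ j.1.2.1)) := by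
      rw [ENNReal.ofReal_sum_of_nonneg fun j _ => by positivity]
      refine Finset.sum_congr rfl fun j _ => ?_
      rw [ENNReal.ofReal_mul (by positivity), ENNReal.ofReal_pow (by norm_num)]
      norm_num
    rw [h2]
    exact ENNReal.ofReal_le_ofReal h1
  calc ∫⁻ θ in Ico 0 (2 * π), ⨆ r ∈ Ico (0 : ℝ) 1,
        ENNReal.ofReal (log (‖deriv φ (r * Complex.exp (θ * Complex.I))‖⁻¹))
      ≤ ∫⁻ θ in Ico 0 (2 * π), (2 ^ 14 + ∑' j : {j : ℕ × ℕ × ℕ // Valid D j},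
        (arc j.1.2.1 j.1.2.2).indicator (fun _ => (2 : ENNReal) ^ j.1.1) θ) := by
        refine setLIntegral_mono' measurableSet_Ico hpt
    _ = 2 ^ 14 * volume (Ico 0 (2 * π)) + ∑' j : {j : ℕ × ℕ × ℕ // Valid D j},
        ∫⁻ θ in Ico 0 (2 * π),
          (arc j.1.2.1 j.1.2.2).indicator (fun _ => (2 : ENNReal) ^ j.1.1) θ := by
        rw [lintegral_add_left measurable_const, lintegral_tsum fun j => (hmeas j).aemeasurable,
          setLIntegral_const]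
    _ = 2 ^ 14 * volume (Ico 0 (2 * π)) + ∑' j : {j : ℕ × ℕ × ℕ // Valid D j},
        (2 : ENNReal) ^ j.1.1 * ENNReal.ofReal (2 * π / 2 ^ j.1.2.1) := by
        congr 1
        refine tsum_congr fun j => ?_
        rw [setLIntegral_indicator (measurableSet_arc _ _),
          inter_eq_left.2 (arc_sub j.2.2.1), setLIntegral_const, volume_arc]
    _ < ⊤ := by
        rw [ENNReal.add_lt_top]
        refine ⟨?_, lt_of_le_of_lt hcount ENNReal.ofReal_lt_top⟩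
        rw [Real.volume_Ico]
        exact ENNReal.mul_lt_top (by simp) ENNReal.ofReal_lt_top

end Pool.Agent.Helper36.CN
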