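import Pool.Agent.Helper36.CauchyN.Signs

/-! Data attached to a point of the disc. -/

set_option autoImplicit false

open Filter Topology Metric Set Real MeasureTheory

namespace Pool.Agent.Helper36.CN

variable {φ : ℂ → ℂ} {Γ : Set ℂ}

theorem ball_subset_image (hφ : DifferentiableOn ℂ φ (ball 0 1)) (hinj : InjOn φ (ball 0 1))
    (hfr : frontier (φ '' ball 0 1) ⊆ Γ) {w : ℂ} (hw : w ∈ ball (0 : ℂ) 1) {ζ : ℂ}
    (hmin : ∀ η ∈ Γ, dist (φ w) ζ ≤ dist (φ w) η) :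
    ball (φ w) (dist (φ w) ζ) ⊆ φ '' ball 0 1 := by
  rcases (dist_nonneg (x := φ w) (y := ζ)).eq_or_lt with h0 | hpos
  · rw [← h0, ball_zero]; exact empty_subset _
  · refine (convex_ball _ _).isPreconnected.subset_of_closure_inter_subset
      (isOpen_image hφ hinj isOpen_ball subset_rfl) ⟨φ w, mem_ball_self hpos, ⟨w, hw, rfl⟩⟩ ?_
    rintro v ⟨hv1, hv2⟩
    by_contra hv3
    have hv4 : v ∈ frontier (φ '' ball 0 1) := by
      rw [frontier, Set.mem_sdiff]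
      refine ⟨hv1, ?_⟩
      rw [(isOpen_image hφ hinj isOpen_ball subset_rfl).interior_eq]
      exact hv3
    have := hmin v (hfr hv4)
    rw [mem_ball, dist_comm] at hv2
    linarith

theorem exists_data (hΓ : IsCompact Γ) (hne : Γ.Nonempty) (hφ : DifferentiableOn ℂ φ (ball 0 1))
    (hinj : InjOn φ (ball 0 1)) (hdisj : Disjoint (φ '' ball 0 1) Γ)
    (hfr : frontier (φ '' ball 0 1) ⊆ Γ) {w : ℂ} (hw : w ∈ ball (0 : ℂ) 1) :
    ∃ ζ ∈ Γ, ∃ q : ℂ → ℂ, DifferentiableOn ℂ q (ball 0 1) ∧ q w = 1 ∧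
      (∀ z ∈ ball (0 : ℂ) 1, √2 - 1 ≤ ‖q z + 1‖) ∧
      ∀ z ∈ ball (0 : ℂ) 1, 0 < ‖ζ - φ z‖ ∧
        ‖ζ - φ z‖ ≤ (1 - ‖w‖ ^ 2) * ‖deriv φ w‖ * ‖q z‖ ^ 2 := by
  obtain ⟨ζ, hζ, hζmin⟩ := hΓ.exists_isMinOn hne
    (f := fun η => dist (φ w) η) (continuous_const.dist continuous_id).continuousOn
  have hmin : ∀ η ∈ Γ, dist (φ w) ζ ≤ dist (φ w) η := fun η hη => hζmin hη
  have hζn : ζ ∉ φ '' ball 0 1 := fun h => hdisj.notMem_of_mem_left h hζ
  have hsub := ball_subset_image hφ hinj hfr hw hmin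
  obtain ⟨q, hq, hqw, hq2, hq1⟩ := exists_sqrt hφ hinj hw hζn hsub
  have hd : 0 < dist (φ w) ζ := by
    rw [dist_pos]
    intro h
    exact hζn (h ▸ ⟨w, hw, rfl⟩)
  have hrad := radius_le hφ hinj hw hd hsub
  refine ⟨ζ, hζ, q, hq, hqw, hq1, fun z hz => ⟨?_, ?_⟩⟩
  · rw [norm_pos_iff, sub_ne_zero]
    intro h
    exact hζn (h ▸ ⟨z, hz, rfl⟩)
  · rw [norm_sub_rev, hq2 z hz, ← dist_eq_norm]
    gcongr

/-- the positive harmonic function attached to the square root -/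
noncomputable def Hf (q : ℂ → ℂ) (z : ℂ) : ℝ := log ‖q z + 1‖ - log (√2 - 1)

theorem sqrt2_pos : 0 < √2 - 1 := by
  have : (1 : ℝ) < √2 := by
    rw [show (1 : ℝ) = √1 by simp]; exact Real.sqrt_lt_sqrt (by norm_num) (by norm_num)
  linarith

theorem Hf_nonneg {q : ℂ → ℂ} {z : ℂ} (h : √2 - 1 ≤ ‖q z + 1‖) : 0 ≤ Hf q z := by
  rw [Hf, sub_nonneg]
  exact log_le_log sqrt2_pos h

theorem Hf_center {q : ℂ → ℂ} {w : ℂ} (h : q w = 1) : Hf q w ≤ 2 := by
  rw [Hf, h]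
  have h1 : ‖(1 : ℂ) + 1‖ = 2 := by norm_num
  rw [h1, ← log_div (by norm_num) sqrt2_pos.ne']
  have hs : √2 ^ 2 = 2 := Real.sq_sqrt (by norm_num)
  have h2 : 2 / (√2 - 1) = 2 * (√2 + 1) := by
    rw [div_eq_iff sqrt2_pos.ne']; nlinarith
  rw [h2]
  have h3 : √2 ≤ 1.42 := by
    rw [Real.sqrt_le_left (by norm_num)]; norm_num
  have h4 : 2 * (√2 + 1) ≤ exp 2 := by
    have h5 : exp 2 = exp 1 * exp 1 := by rw [← Real.exp_add]; norm_num
    have h6 := Real.exp_one_gt_d9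
    rw [h5]
    nlinarith
  calc log (2 * (√2 + 1)) ≤ log (exp 2) := log_le_log (by positivity) h4
    _ = 2 := log_exp 2

theorem log_norm_le {q : ℂ → ℂ} {z : ℂ} (h : √2 - 1 ≤ ‖q z + 1‖) (h0 : 0 < ‖q z‖) :
    log ‖q z‖ ≤ Hf q z + log 2 / 2 := by
  have hs : √2 ^ 2 = 2 := Real.sq_sqrt (by norm_num)
  have hp := sqrt2_pos
  have h1 : ‖q z‖ ≤ ‖q z + 1‖ * (2 + √2) := by
    have h2 : ‖q z‖ ≤ ‖q z + 1‖ + 1 := by
      calc ‖q z‖ = ‖(q z + 1) - 1‖ := by congr 1; ring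
        _ ≤ ‖q z + 1‖ + ‖(1 : ℂ)‖ := norm_sub_le _ _
        _ = ‖q z + 1‖ + 1 := by norm_num
    nlinarith
  have h2 : 0 < ‖q z + 1‖ := lt_of_lt_of_le hp h
  have h3 : log ‖q z‖ ≤ log ‖q z + 1‖ + log (2 + √2) := by
    rw [← log_mul h2.ne' (by positivity)]
    exact log_le_log h0 h1
  have h4 : log (2 + √2) + log (√2 - 1) = log 2 / 2 := by
    rw [← log_mul (by positivity) hp.ne']
    have h5 : (2 + √2) * (√2 - 1) = √2 := by nlinarith
    rw [h5, Real.log_sqrt (by norm_num)]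
  rw [Hf]
  linarith

theorem Hf_harmonic {q : ℂ → ℂ} (hq : DifferentiableOn ℂ q (ball 0 1))
    (hqc : ∀ z ∈ ball (0 : ℂ) 1, √2 - 1 ≤ ‖q z + 1‖) :
    InnerProductSpace.HarmonicOnNhd (Hf q) (ball 0 1) := by
  intro z hz
  have h1 : AnalyticAt ℂ (fun z => q z + 1) z :=
    (hq.analyticAt (isOpen_ball.mem_nhds hz)).add analyticAt_const
  have h2 : q z + 1 ≠ 0 := by
    intro h
    have := hqc z hz
    rw [h, norm_zero] at this
    linarith [sqrt2_pos]
  have h3 := h1.harmonicAt_log_norm h2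
  have h4 : InnerProductSpace.HarmonicAt (fun _ : ℂ => log (√2 - 1)) z := by
    exact InnerProductSpace.harmonicAt_const _
  exact h3.sub h4

theorem Hf_continuousOn {q : ℂ → ℂ} (hq : DifferentiableOn ℂ q (ball 0 1))
    (hqc : ∀ z ∈ ball (0 : ℂ) 1, √2 - 1 ≤ ‖q z + 1‖) : ContinuousOn (Hf q) (ball 0 1) := by
  refine ContinuousOn.sub ?_ continuousOn_const
  refine ContinuousOn.log ((hq.continuousOn.add continuousOn_const).norm) ?_
  intro z hz h
  have := hqc z hz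
  rw [h] at this
  linarith [sqrt2_pos]

theorem poisson_bound {q : ℂ → ℂ} (hq : DifferentiableOn ℂ q (ball 0 1))
    (hqc : ∀ z ∈ ball (0 : ℂ) 1, √2 - 1 ≤ ‖q z + 1‖) {w : ℂ} (hqw : q w = 1) {r : ℝ} (hr0 : 0 < r)
    (hr : r < 1) (hw : ‖w‖ < r) {S : Set ℝ} (hS : MeasurableSet S) (hSsub : S ⊆ Icc 0 (2 * π))
    {κ : ℝ} (hκ : 0 < κ) (hP : ∀ θ ∈ S, κ ≤ poissonKernel 0 w (circleMap 0 r θ)) :
    ∫ θ in S, Hf q (circleMap 0 r θ) ≤ 4 * π / κ := by
  have hcb : closedBall (0 : ℂ) r ⊆ ball 0 1 := closedBall_subset_ball hr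
  have hsph : ∀ θ, circleMap 0 r θ ∈ ball (0 : ℂ) 1 := by
    intro θ
    apply hcb
    rw [mem_closedBall_zero_iff, norm_circleMap_zero, abs_of_pos hr0]
  have hpois := InnerProductSpace.HarmonicOnNhd.circleAverage_poissonKernel_smul
    ((Hf_harmonic hq hqc).mono hcb) (w := w) (by simpa using hw)
  have hnn : ∀ θ, 0 ≤ poissonKernel 0 w (circleMap 0 r θ) := by
    intro θ
    rw [poissonKernel_def]
    simp only [sub_zero, norm_circleMap_zero, abs_of_pos hr0]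
    apply div_nonneg _ (by positivity)
    nlinarith [norm_nonneg w]
  have hHn : ∀ θ, 0 ≤ Hf q (circleMap 0 r θ) := fun θ => Hf_nonneg (hqc _ (hsph θ))
  have hHc : Continuous fun θ => Hf q (circleMap 0 r θ) :=
    (Hf_continuousOn hq hqc).comp_continuous (continuous_circleMap 0 r) hsph
  have hPc : Continuous fun θ => poissonKernel 0 w (circleMap 0 r θ) := by
    simp only [poissonKernel_def, sub_zero]
    refine Continuous.div (by fun_prop) (by fun_prop) ?_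
    intro θ h
    have h1 : ‖circleMap 0 r θ - w‖ = 0 := by simpa using h
    have h2 : circleMap 0 r θ = w := sub_eq_zero.1 (norm_eq_zero.1 h1)
    have h3 : ‖w‖ = r := by rw [← h2, norm_circleMap_zero, abs_of_pos hr0]
    linarith
  rw [circleAverage_def] at hpois
  have h1 : ∫ θ in (0)..(2 * π), (poissonKernel 0 w • Hf q) (circleMap 0 r θ) ≤ 4 * π := by
    have h2 : (2 * π)⁻¹ * ∫ θ in (0)..(2 * π), (poissonKernel 0 w • Hf q) (circleMap 0 r θ)
        ≤ 2 := by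
      have := Hf_center hqw
      rw [← hpois] at this
      simpa using this
    rw [inv_mul_le_iff₀ (by positivity)] at h2
    linarith
  have h3 : κ * ∫ θ in S, Hf q (circleMap 0 r θ)
      ≤ ∫ θ in (0)..(2 * π), (poissonKernel 0 w • Hf q) (circleMap 0 r θ) := by
    rw [intervalIntegral.integral_of_le (by positivity), ← integral_const_mul,
      ← integral_Icc_eq_integral_Ioc]
    have hint : IntegrableOn (fun θ => (poissonKernel 0 w • Hf q) (circleMap 0 r θ))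
        (Icc 0 (2 * π)) := by
      have : Continuous fun θ => (poissonKernel 0 w • Hf q) (circleMap 0 r θ) := hPc.mul hHc
      exact this.integrableOn_Icc
    calc ∫ θ in S, κ * Hf q (circleMap 0 r θ)
        ≤ ∫ θ in S, (poissonKernel 0 w • Hf q) (circleMap 0 r θ) := by
          refine setIntegral_mono_on ?_ (hint.mono_set hSsub) hS ?_
          · exact ((hHc.const_mul κ).integrableOn_Icc (a := 0) (b := 2 * π)).mono_set hSsub
          · intro θ hθ
            change _ ≤ poissonKernel 0 w (circleMap 0 r θ) * Hf q (circleMap 0 r θ)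
            have := hHn θ
            gcongr
            exact hP θ hθ
      _ ≤ ∫ θ in Icc 0 (2 * π), (poissonKernel 0 w • Hf q) (circleMap 0 r θ) := by
          refine setIntegral_mono_set hint ?_ hSsub.eventuallyLE
          refine Filter.Eventually.of_forall fun θ => ?_
          exact mul_nonneg (hnn θ) (hHn θ)
  rw [le_div_iff₀ hκ]
  linarith

end Pool.Agent.Helper36.CN
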