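import Pool.Agent.Helper36.CauchyN.Char

/-! Averaging over signs. -/

set_option autoImplicit false

open Filter Topology Metric Set Real

namespace Pool.Agent.Helper36.CN

theorem posLog_add_sub_ge (x a : ℂ) : posLog ‖a‖ ≤ posLog ‖x + a‖ + posLog ‖x - a‖ := by
  have h1 : ‖a‖ ≤ ‖x + a‖ ∨ ‖a‖ ≤ ‖x - a‖ := by
    by_contra h
    push Not at h
    have h2 : ‖(2 : ℂ) * a‖ ≤ ‖x + a‖ + ‖x - a‖ := by
      calc ‖(2 : ℂ) * a‖ = ‖(x + a) - (x - a)‖ := by congr 1; ring
        _ ≤ _ := norm_sub_le _ _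
    rw [norm_mul] at h2
    norm_num at h2
    linarith [h.1, h.2]
  rcases h1 with h1 | h1
  · have := posLog_le_posLog (norm_nonneg a) h1
    have := posLog_nonneg (x := ‖x - a‖)
    linarith
  · have := posLog_le_posLog (norm_nonneg a) h1
    have := posLog_nonneg (x := ‖x + a‖)
    linarith

/-- signs -/
noncomputable def sg {ι : Type} [DecidableEq ι] (s : Finset ι) (j : ι) : ℂ := if j ∈ s then 1 else -1

theorem sum_signs_ge {ι : Type} [DecidableEq ι] (J : Finset ι) (a : ι → ℂ) {j : ι} (hj : j ∈ J) :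
    2 ^ J.card * posLog ‖a j‖ ≤ 2 * ∑ s ∈ J.powerset, posLog ‖∑ i ∈ J, sg s i * a i‖ := by
  obtain ⟨J', hj', rfl⟩ : ∃ J' : Finset ι, j ∉ J' ∧ insert j J' = J :=
    ⟨J.erase j, Finset.notMem_erase _ _, Finset.insert_erase hj⟩
  rw [Finset.sum_powerset_insert hj', ← Finset.sum_add_distrib, Finset.card_insert_of_notMem hj']
  have h1 : ∀ s ∈ J'.powerset, posLog ‖a j‖ ≤ posLog ‖∑ i ∈ insert j J', sg s i * a i‖
      + posLog ‖∑ i ∈ insert j J', sg (insert j s) i * a i‖ := by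
    intro s hs
    have hjs : j ∉ s := fun h => hj' (Finset.mem_powerset.1 hs h)
    rw [Finset.sum_insert hj', Finset.sum_insert hj']
    have e1 : sg s j = -1 := by simp [sg, hjs]
    have e2 : sg (insert j s) j = 1 := by simp [sg]
    have e3 : ∑ i ∈ J', sg (insert j s) i * a i = ∑ i ∈ J', sg s i * a i := by
      refine Finset.sum_congr rfl fun i hi => ?_
      have hij : i ≠ j := fun h => hj' (h ▸ hi)
      simp [sg, hij]
    rw [e1, e2, e3]
    have := posLog_add_sub_ge (∑ i ∈ J', sg s i * a i) (a j)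
    have e4 : -1 * a j + ∑ i ∈ J', sg s i * a i = (∑ i ∈ J', sg s i * a i) - a j := by ring
    have e5 : 1 * a j + ∑ i ∈ J', sg s i * a i = (∑ i ∈ J', sg s i * a i) + a j := by ring
    rw [e4, e5]
    linarith
  have h2 := Finset.sum_le_sum h1
  rw [Finset.sum_const, Finset.card_powerset, nsmul_eq_mul] at h2
  push_cast at h2
  rw [pow_succ]
  linarith

variable {Γ : Set ℂ} {φ : ℂ → ℂ} {ι : Type} [DecidableEq ι] (ζ : ι → ℂ)

/-- If all normalised Cauchy sums have characteristic at most `B`, then there is a function `R` on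
the circle dominating all the logarithms of the terms. -/
theorem exists_dominant (hΓ : IsCompact Γ) (hφ : ContinuousOn φ (ball 0 1))
    (hdisj : Disjoint (φ '' ball 0 1) Γ) (hζ : ∀ j, ζ j ∈ Γ) {B : ℝ}
    (hB : ∀ c : ι → ℂ, (Summable fun j => ‖c j‖) → ∑' j, ‖c j‖ ≤ 1 → ∀ r : ℝ, 1 / 2 ≤ r →
      r < 1 → circleAverage (fun z => posLog ‖KS φ ζ c z‖) 0 r ≤ B)
    (J : Finset ι) (c : ι → ℝ) (hc0 : ∀ j ∈ J, 0 ≤ c j) (hc : ∑ j ∈ J, c j ≤ 1) {r : ℝ}
    (hr1 : 1 / 2 ≤ r) (hr2 : r < 1) :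
    ∃ R : ℂ → ℝ, CircleIntegrable R 0 r ∧ circleAverage R 0 r ≤ 2 * B ∧
      (∀ z ∈ ball (0 : ℂ) 1, 0 ≤ R z) ∧
      ∀ z ∈ ball (0 : ℂ) 1, ∀ j ∈ J, posLog (c j / ‖ζ j - φ z‖) ≤ R z := by
  classical
  have hr0 : 0 ≤ r := by linarith
  let cs : Finset ι → ι → ℂ := fun s j => if j ∈ J then sg s j * (c j : ℂ) else 0
  have hcsfin : ∀ s, ∀ j ∉ J, cs s j = 0 := fun s j hj => by simp [cs, hj]
  have hsum : ∀ s, Summable fun j => ‖cs s j‖ := fun s =>
    summable_of_ne_finset_zero (s := J) fun j hj => by rw [hcsfin s j hj, norm_zero]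
  have hnorm : ∀ s, ∑' j, ‖cs s j‖ ≤ 1 := by
    intro s
    rw [tsum_eq_sum (s := J) fun j hj => by rw [hcsfin s j hj, norm_zero]]
    refine le_trans (le_of_eq (Finset.sum_congr rfl fun j hj => ?_)) hc
    simp only [cs, if_pos hj, norm_mul, Complex.norm_real, Real.norm_of_nonneg (hc0 j hj)]
    have : ‖sg s j‖ = 1 := by
      simp only [sg]; split_ifs <;> simp
    rw [this, one_mul]
  have hKS : ∀ s z, KS φ ζ (cs s) z = ∑ j ∈ J, sg s j * ((c j : ℂ) / (ζ j - φ z)) := by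
    intro s z
    rw [KS, tsum_eq_sum (s := J) fun j hj => by rw [hcsfin s j hj, zero_div]]
    refine Finset.sum_congr rfl fun j hj => ?_
    simp only [cs, if_pos hj]
    ring
  let P : Finset ι → ℂ → ℝ := fun s z => posLog ‖KS φ ζ (cs s) z‖
  have hPi : ∀ s, CircleIntegrable (P s) 0 r := fun s =>
    KS_circleIntegrable ζ hΓ hφ hdisj hζ (hsum s) hr0 hr2
  have hPa : ∀ s, circleAverage (P s) 0 r ≤ B := fun s => hB (cs s) (hsum s) (hnorm s) r hr1 hr2
  have h2 : (0 : ℝ) < 2 ^ J.card := by positivity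
  let R : ℂ → ℝ := fun z => (2 / 2 ^ J.card) * ∑ s ∈ J.powerset, P s z
  have hSi : CircleIntegrable (fun z => ∑ s ∈ J.powerset, P s z) 0 r :=
    CircleIntegrable.fun_sum _ fun s _ => hPi s
  refine ⟨R, ?_, ?_, ?_, ?_⟩
  · exact hSi.const_mul _
  · have e1 : circleAverage R 0 r = (2 / 2 ^ J.card) * ∑ s ∈ J.powerset, circleAverage (P s) 0 r := by
      have : R = fun z => (2 / 2 ^ J.card : ℝ) • ∑ s ∈ J.powerset, P s z := rfl
      rw [this, circleAverage_fun_smul, circleAverage_fun_sum (fun s _ => hPi s), smul_eq_mul]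
    rw [e1]
    have h3 : ∑ s ∈ J.powerset, circleAverage (P s) 0 r ≤ 2 ^ J.card * B := by
      calc ∑ s ∈ J.powerset, circleAverage (P s) 0 r ≤ ∑ _s ∈ J.powerset, B :=
            Finset.sum_le_sum fun s _ => hPa s
        _ = 2 ^ J.card * B := by
          rw [Finset.sum_const, Finset.card_powerset, nsmul_eq_mul]; push_cast; ring
    calc (2 / 2 ^ J.card : ℝ) * ∑ s ∈ J.powerset, circleAverage (P s) 0 r
        ≤ (2 / 2 ^ J.card : ℝ) * (2 ^ J.card * B) := by gcongr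
      _ = 2 * B := by field_simp
  · intro z _
    refine mul_nonneg (by positivity) (Finset.sum_nonneg fun s _ => posLog_nonneg)
  · intro z hz j hj
    have h3 := sum_signs_ge J (fun j => (c j : ℂ) / (ζ j - φ z)) hj
    have e1 : ‖(c j : ℂ) / (ζ j - φ z)‖ = c j / ‖ζ j - φ z‖ := by
      rw [norm_div, Complex.norm_real, Real.norm_of_nonneg (hc0 j hj)]
    simp only [R, P, hKS]
    rw [e1] at h3
    rw [div_mul_eq_mul_div, le_div_iff₀ h2, mul_comm]
    exact h3

end Pool.Agent.Helper36.CN
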