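import Pool.Agent.Helper36.CauchyN.Univ

/-! The square-root trick for univalent functions. -/

set_option autoImplicit false

open Filter Topology Metric Set

namespace Pool.Agent.Helper36.CN

variable {φ : ℂ → ℂ}

/-- analytic logarithm of a zero free function on the disc, normalised at `w` -/
theorem exists_log {g : ℂ → ℂ} (hg : DifferentiableOn ℂ g (ball 0 1))
    (h0 : ∀ z ∈ ball (0 : ℂ) 1, g z ≠ 0) {w : ℂ} (hw : w ∈ ball (0 : ℂ) 1) (hgw : g w = 1) :
    ∃ L : ℂ → ℂ, DifferentiableOn ℂ L (ball 0 1) ∧ L w = 0 ∧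
      ∀ z ∈ ball (0 : ℂ) 1, Complex.exp (L z) = g z := by
  have hg' : DifferentiableOn ℂ (deriv g) (ball 0 1) := hg.deriv isOpen_ball
  obtain ⟨F, hF⟩ := (hg'.div hg h0).isExactOn_ball
  have hF' : ∀ z ∈ ball (0 : ℂ) 1, HasDerivAt F (deriv g z / g z) z := hF
  refine ⟨fun z => F z - F w, ?_, by simp, ?_⟩
  · intro z hz
    exact ((hF' z hz).differentiableAt.sub_const _).differentiableWithinAt
  · intro z hz
    -- `exp (-(F - F w)) * g` is constant
    let E : ℂ → ℂ := fun z => Complex.exp (-(F z - F w)) * g z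
    have hE : ∀ x ∈ ball (0 : ℂ) 1, HasDerivAt E 0 x := by
      intro x hx
      have h1 : HasDerivAt (fun z => -(F z - F w)) (-(deriv g x / g x)) x :=
        ((hF' x hx).sub_const _).neg
      have h2 : HasDerivAt g (deriv g x) x :=
        (hg.differentiableAt (isOpen_ball.mem_nhds hx)).hasDerivAt
      have h3 := h1.cexp.mul h2
      refine h3.congr_deriv ?_
      have := h0 x hx
      field_simp
      ring
    have hconst : E z = E w := by
      refine (convex_ball (0 : ℂ) 1).is_const_of_fderivWithin_eq_zero (𝕜 := ℂ)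
        (fun x hx => (hE x hx).differentiableAt.differentiableWithinAt) ?_ hz hw
      intro x hx
      rw [fderivWithin_of_isOpen isOpen_ball hx]
      ext
      have := (hE x hx).deriv
      simpa [fderiv_apply_one_eq_deriv] using this
    have hEw : E w = 1 := by simp only [E]; rw [hgw]; simp
    rw [hEw] at hconst
    simp only [E] at hconst
    rw [Complex.exp_neg] at hconst
    have hne := Complex.exp_ne_zero (F z - F w)
    field_simp at hconst
    exact hconst.symm

theorem re_pos_of_sq {B : Set ℂ} (hB : IsPreconnected B) {k : ℂ → ℂ} (hk : ContinuousOn k B)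
    {v₀ : ℂ} (hv₀ : v₀ ∈ B) (hk0 : k v₀ = 1) (hsq : ∀ v ∈ B, ‖k v ^ 2 - 1‖ < 1) :
    ∀ v ∈ B, 0 < (k v).re := by
  have hne : ∀ v ∈ B, (k v).re ≠ 0 := by
    intro v hv h
    have h1 : (k v ^ 2 - 1).re ≤ -1 := by
      rw [sq]
      simp only [Complex.sub_re, Complex.mul_re, Complex.one_re, h]
      nlinarith [sq_nonneg (k v).im]
    have h2 := Complex.abs_re_le_norm (k v ^ 2 - 1)
    have h3 := hsq v hv
    have h4 := neg_abs_le (k v ^ 2 - 1).re
    have h5 : 1 ≤ |(k v ^ 2 - 1).re| := by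
      rw [le_abs]; right; linarith
    linarith
  intro v hv
  by_contra hcon
  have hlt : (k v).re ≤ 0 := not_lt.1 hcon
  have hc : ContinuousOn (fun v => (k v).re) B := Complex.continuous_re.comp_continuousOn hk
  have := hB.intermediate_value hv hv₀ hc
  have h0 : (0 : ℝ) ∈ Icc ((k v).re) ((k v₀).re) := ⟨hlt, by rw [hk0]; norm_num⟩
  obtain ⟨u, hu, hu0⟩ := this h0
  exact hne u hu hu0

/-- The square-root trick. -/
theorem exists_sqrt (hφ : DifferentiableOn ℂ φ (ball 0 1)) (hinj : InjOn φ (ball 0 1)) {w ζ : ℂ}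
    (hw : w ∈ ball (0 : ℂ) 1) (hζ : ζ ∉ φ '' ball 0 1)
    (hsub : ball (φ w) (dist (φ w) ζ) ⊆ φ '' ball 0 1) :
    ∃ q : ℂ → ℂ, DifferentiableOn ℂ q (ball 0 1) ∧ q w = 1 ∧
      (∀ z ∈ ball (0 : ℂ) 1, ‖φ z - ζ‖ = ‖φ w - ζ‖ * ‖q z‖ ^ 2) ∧
      ∀ z ∈ ball (0 : ℂ) 1, √2 - 1 ≤ ‖q z + 1‖ := by
  have hne : ∀ z ∈ ball (0 : ℂ) 1, φ z - ζ ≠ 0 := by
    intro z hz h
    exact hζ ⟨z, hz, sub_eq_zero.1 h⟩
  have hw0 := hne w hw
  have hd : 0 < ‖φ w - ζ‖ := norm_pos_iff.2 hw0
  obtain ⟨L, hL, hLw, hLe⟩ := exists_log (g := fun z => (φ z - ζ) / (φ w - ζ))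
    ((hφ.sub_const ζ).div_const _) (fun z hz => div_ne_zero (hne z hz) hw0) hw (div_self hw0)
  let q : ℂ → ℂ := fun z => Complex.exp (L z / 2)
  have hq : DifferentiableOn ℂ q (ball 0 1) := (hL.div_const 2).cexp
  have hqw : q w = 1 := by simp only [q]; rw [hLw]; simp
  have hq2 : ∀ z ∈ ball (0 : ℂ) 1, q z ^ 2 = (φ z - ζ) / (φ w - ζ) := by
    intro z hz
    simp only [q]
    rw [← Complex.exp_nat_mul, ← hLe z hz]
    congr 1
    push_cast
    ring
  refine ⟨q, hq, hqw, ?_, ?_⟩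
  · intro z hz
    rw [← norm_pow, hq2 z hz, norm_div, mul_div_cancel₀ _ hd.ne']
  · intro z hz
    by_contra hlt
    rw [not_le] at hlt
    have hs2 : √2 ^ 2 = 2 := Real.sq_sqrt (by norm_num)
    have hs1 : (1 : ℝ) < √2 := by
      rw [show (1 : ℝ) = √1 by simp]; exact Real.sqrt_lt_sqrt (by norm_num) (by norm_num)
    -- `q z ^ 2` lies in the disc
    have h1 : ‖q z ^ 2 - 1‖ < 1 := by
      have e1 : q z ^ 2 - 1 = (q z + 1) * (q z - 1) := by ring
      have e2 : ‖q z - 1‖ ≤ ‖q z + 1‖ + 2 := by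
        calc ‖q z - 1‖ = ‖(q z + 1) - 2‖ := by congr 1; ring
          _ ≤ ‖q z + 1‖ + ‖(2 : ℂ)‖ := norm_sub_le _ _
          _ = ‖q z + 1‖ + 2 := by norm_num
      rw [e1, norm_mul]
      nlinarith [norm_nonneg (q z + 1), norm_nonneg (q z - 1)]
    have h2 : φ z ∈ ball (φ w) (dist (φ w) ζ) := by
      rw [mem_ball, dist_eq_norm, dist_eq_norm]
      rw [hq2 z hz] at h1
      have e1 : (φ z - ζ) / (φ w - ζ) - 1 = (φ z - φ w) / (φ w - ζ) := by
        field_simp; ring
      rw [e1, norm_div, div_lt_one hd] at h1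
      exact h1
    -- the branch on the disc
    set B := ball (φ w) (dist (φ w) ζ) with hB
    let k : ℂ → ℂ := fun v => q (inv φ v)
    have hk : ContinuousOn k B := by
      refine hq.continuousOn.comp ?_ fun v hv => inv_mem (hsub hv)
      exact ((differentiableOn_inv hφ hinj).continuousOn).mono hsub
    have hv₀ : φ w ∈ B := mem_ball_self (by rw [dist_eq_norm]; exact hd)
    have hk0 : k (φ w) = 1 := by simp only [k]; rw [inv_apply hinj hw, hqw]
    have hsq : ∀ v ∈ B, ‖k v ^ 2 - 1‖ < 1 := by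
      intro v hv
      simp only [k]
      rw [hq2 _ (inv_mem (hsub hv)), apply_inv (hsub hv)]
      have e1 : (v - ζ) / (φ w - ζ) - 1 = (v - φ w) / (φ w - ζ) := by
        field_simp; ring
      rw [e1, norm_div, div_lt_one hd]
      rw [hB, mem_ball, dist_eq_norm, dist_eq_norm] at hv
      exact hv
    have h3 := re_pos_of_sq (convex_ball _ _).isPreconnected hk hv₀ hk0 hsq (φ z) h2
    simp only [k] at h3
    rw [inv_apply hinj hz] at h3
    have h4 := Complex.abs_re_le_norm (q z + 1)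
    rw [Complex.add_re, Complex.one_re] at h4
    have h5 : 1 ≤ |(q z).re + 1| := by rw [le_abs]; left; linarith
    have h6 : √2 < 2 := by
      nlinarith
    linarith

end Pool.Agent.Helper36.CN
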