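import Mathlib

/-! Elementary facts on univalent functions in the unit disc. -/

set_option autoImplicit false

open Filter Topology Metric Set

namespace Pool.Agent.Helper36.CN

variable {φ : ℂ → ℂ}

theorem nhds_le_map (hφ : DifferentiableOn ℂ φ (ball 0 1)) (hinj : InjOn φ (ball 0 1)) {z : ℂ}
    (hz : z ∈ ball (0 : ℂ) 1) : 𝓝 (φ z) ≤ map φ (𝓝 z) := by
  have hmem : ball (0 : ℂ) 1 ∈ 𝓝 z := isOpen_ball.mem_nhds hz
  have han : AnalyticAt ℂ φ z := hφ.analyticAt hmem
  rcases han.eventually_constant_or_nhds_le_map_nhds with h | h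
  · exfalso
    have h1 : ∀ᶠ z' in 𝓝 z, z' = z := by
      filter_upwards [h, hmem] with z' h1 h2
      exact hinj h2 hz h1
    have h2 : (𝓝[≠] z).NeBot := inferInstance
    have h3 : ∀ᶠ z' in 𝓝[≠] z, False := by
      filter_upwards [h1.filter_mono nhdsWithin_le_nhds, self_mem_nhdsWithin] with z' h4 h5
      exact h5 h4
    exact h3.exists.elim fun _ h => h
  · exact h

/-- the inverse map -/
noncomputable def inv (φ : ℂ → ℂ) : ℂ → ℂ := Function.invFunOn φ (ball 0 1)

theorem inv_apply (hinj : InjOn φ (ball 0 1)) {z : ℂ} (hz : z ∈ ball (0 : ℂ) 1) :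
    inv φ (φ z) = z := hinj.leftInvOn_invFunOn hz

theorem inv_mem {v : ℂ} (hv : v ∈ φ '' ball 0 1) : inv φ v ∈ ball (0 : ℂ) 1 :=
  Function.invFunOn_mem hv

theorem apply_inv {v : ℂ} (hv : v ∈ φ '' ball 0 1) : φ (inv φ v) = v :=
  Function.invFunOn_eq hv

theorem isOpen_image (hφ : DifferentiableOn ℂ φ (ball 0 1)) (hinj : InjOn φ (ball 0 1)) {s : Set ℂ}
    (hs : IsOpen s) (hsb : s ⊆ ball 0 1) : IsOpen (φ '' s) := by
  rw [isOpen_iff_mem_nhds]
  rintro _ ⟨z, hz, rfl⟩
  exact nhds_le_map hφ hinj (hsb hz) (image_mem_map (hs.mem_nhds hz))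

theorem continuousAt_inv (hφ : DifferentiableOn ℂ φ (ball 0 1)) (hinj : InjOn φ (ball 0 1)) {z : ℂ}
    (hz : z ∈ ball (0 : ℂ) 1) : ContinuousAt (inv φ) (φ z) := by
  rw [ContinuousAt, inv_apply hinj hz]
  intro s hs
  have h1 : s ∩ ball 0 1 ∈ 𝓝 z := inter_mem hs (isOpen_ball.mem_nhds hz)
  have h2 := nhds_le_map hφ hinj hz (image_mem_map h1)
  rw [mem_map]
  refine mem_of_superset h2 ?_
  rintro _ ⟨z', ⟨h3, h4⟩, rfl⟩
  change inv φ (φ z') ∈ s
  rw [inv_apply hinj h4]
  exact h3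

theorem hasDerivAt_inv (hφ : DifferentiableOn ℂ φ (ball 0 1)) (hinj : InjOn φ (ball 0 1)) {z : ℂ}
    (hz : z ∈ ball (0 : ℂ) 1) (hd : deriv φ z ≠ 0) :
    HasDerivAt (inv φ) (deriv φ z)⁻¹ (φ z) := by
  have hdiff : HasDerivAt φ (deriv φ z) z :=
    (hφ.differentiableAt (isOpen_ball.mem_nhds hz)).hasDerivAt
  refine HasDerivAt.of_local_left_inverse (f := φ) (continuousAt_inv hφ hinj hz) ?_ hd ?_
  · rw [inv_apply hinj hz]; exact hdiff
  · filter_upwards [(isOpen_image hφ hinj isOpen_ball subset_rfl).mem_nhds ⟨z, hz, rfl⟩] with v hv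
    exact apply_inv hv

theorem deriv_ne_zero (hφ : DifferentiableOn ℂ φ (ball 0 1)) (hinj : InjOn φ (ball 0 1)) {z : ℂ}
    (hz : z ∈ ball (0 : ℂ) 1) : deriv φ z ≠ 0 := by
  have hmem : ball (0 : ℂ) 1 ∈ 𝓝 z := isOpen_ball.mem_nhds hz
  have han : AnalyticAt ℂ φ z := hφ.analyticAt hmem
  -- the derivative does not vanish near `z`, except possibly at `z`
  have h1 : ∀ᶠ z' in 𝓝[≠] z, deriv φ z' ≠ 0 := by
    rcases han.deriv.eventually_eq_zero_or_eventually_ne_zero with h | h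
    · exfalso
      have h2 := nhds_le_map hφ hinj hz
      obtain ⟨ε, hε, hball⟩ := Metric.mem_nhds_iff.1 (inter_mem h hmem)
      have hc : ∀ z' ∈ ball z ε, φ z' = φ z := by
        intro z' hz'
        refine (convex_ball z ε).is_const_of_fderivWithin_eq_zero (𝕜 := ℂ)
          (hφ.mono fun x hx => (hball hx).2) ?_ hz' (mem_ball_self hε)
        intro x hx
        rw [fderivWithin_of_isOpen isOpen_ball hx]
        ext
        simp only [zero_apply]
        have := (hball hx).1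
        simpa [fderiv_apply_one_eq_deriv] using this
      have h3 : ∃ z' ∈ ball z ε, z' ≠ z := by
        refine ⟨z + (ε / 2 : ℝ), ?_, ?_⟩
        · rw [mem_ball, dist_eq_norm]
          simp [abs_of_pos hε]
          linarith
        · intro h
          have : ((ε / 2 : ℝ) : ℂ) = 0 := by simpa using h
          rw [Complex.ofReal_eq_zero] at this
          linarith
      obtain ⟨z', hz', hne⟩ := h3
      exact hne (hinj (hball hz').2 hz (hc z' hz'))
    · exact h
  have hcont := continuousAt_inv hφ hinj hz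
  have h2 : ∀ᶠ v in 𝓝[≠] (φ z), DifferentiableAt ℂ (inv φ) v := by
    have h3 : Tendsto (inv φ) (𝓝[≠] (φ z)) (𝓝[≠] z) := by
      rw [tendsto_nhdsWithin_iff]
      refine ⟨?_, ?_⟩
      · have := hcont.tendsto
        rw [inv_apply hinj hz] at this
        exact this.mono_left nhdsWithin_le_nhds
      · filter_upwards [self_mem_nhdsWithin, nhdsWithin_le_nhds
          ((isOpen_image hφ hinj isOpen_ball subset_rfl).mem_nhds ⟨z, hz, rfl⟩)] with v hv hv2
        intro h4
        apply hv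
        have : inv φ v = z := h4
        rw [mem_singleton_iff, ← this, apply_inv hv2]
    filter_upwards [h3.eventually h1, nhdsWithin_le_nhds
      ((isOpen_image hφ hinj isOpen_ball subset_rfl).mem_nhds ⟨z, hz, rfl⟩)] with v hv hv2
    have := hasDerivAt_inv hφ hinj (inv_mem hv2) hv
    rw [apply_inv hv2] at this
    exact this.differentiableAt
  have h4 : AnalyticAt ℂ (inv φ) (φ z) :=
    Complex.analyticAt_of_differentiable_on_punctured_nhds_of_continuousAt h2 hcont
  have h5 : HasDerivAt (fun x => inv φ (φ x)) (deriv (inv φ) (φ z) * deriv φ z) z :=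
    (h4.differentiableAt.hasDerivAt).comp z
      ((hφ.differentiableAt (isOpen_ball.mem_nhds hz)).hasDerivAt)
  have h6 : HasDerivAt (fun x => inv φ (φ x)) 1 z := by
    refine (hasDerivAt_id z).congr_of_eventuallyEq ?_
    filter_upwards [hmem] with x hx
    exact inv_apply hinj hx
  have h7 := h5.unique h6
  intro h8
  rw [h8, mul_zero] at h7
  exact zero_ne_one h7

theorem differentiableOn_inv (hφ : DifferentiableOn ℂ φ (ball 0 1)) (hinj : InjOn φ (ball 0 1)) :
    DifferentiableOn ℂ (inv φ) (φ '' ball 0 1) := by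
  rintro _ ⟨z, hz, rfl⟩
  exact (hasDerivAt_inv hφ hinj hz (deriv_ne_zero hφ hinj hz)).differentiableAt
    |>.differentiableWithinAt

/-- Schwarz-Pick: a disc around `φ w` in the image has radius at most `(1 - |w|²)|φ' w|`. -/
theorem radius_le (hφ : DifferentiableOn ℂ φ (ball 0 1)) (hinj : InjOn φ (ball 0 1)) {w : ℂ}
    (hw : w ∈ ball (0 : ℂ) 1) {d : ℝ} (hd : 0 < d) (hsub : ball (φ w) d ⊆ φ '' ball 0 1) :
    d ≤ (1 - ‖w‖ ^ 2) * ‖deriv φ w‖ := by
  have hw1 : ‖w‖ < 1 := by simpa using hw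
  have hpos : 0 < 1 - ‖w‖ ^ 2 := by nlinarith [norm_nonneg w]
  -- Moebius map
  let τ : ℂ → ℂ := fun z => (z - w) / (1 - (starRingEnd ℂ) w * z)
  have hden : ∀ z ∈ ball (0 : ℂ) 1, 1 - (starRingEnd ℂ) w * z ≠ 0 := by
    intro z hz h
    have h1 : (starRingEnd ℂ) w * z = 1 := (sub_eq_zero.1 h).symm
    have h2 : ‖w‖ * ‖z‖ = 1 := by
      rw [← RCLike.norm_conj w, ← norm_mul, h1, norm_one]
    have hz1 : ‖z‖ < 1 := by simpa using hz
    nlinarith [norm_nonneg w, norm_nonneg z]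
  have hτ : ∀ z ∈ ball (0 : ℂ) 1, ‖τ z‖ < 1 := by
    intro z hz
    have hz1 : ‖z‖ < 1 := by simpa using hz
    simp only [τ]
    rw [norm_div, div_lt_one (norm_pos_iff.2 (hden z hz))]
    have h1 : ‖z - w‖ ^ 2 < ‖1 - (starRingEnd ℂ) w * z‖ ^ 2 := by
      have e1 : ‖1 - (starRingEnd ℂ) w * z‖ ^ 2 - ‖z - w‖ ^ 2 = (1 - ‖w‖ ^ 2) * (1 - ‖z‖ ^ 2) := by
        simp only [← Complex.normSq_eq_norm_sq, Complex.normSq_apply, Complex.sub_re,
          Complex.sub_im, Complex.mul_re, Complex.mul_im, Complex.conj_re, Complex.conj_im,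
          Complex.one_re, Complex.one_im]
        ring
      have : 0 < (1 - ‖w‖ ^ 2) * (1 - ‖z‖ ^ 2) := by
        apply mul_pos hpos
        nlinarith [norm_nonneg z]
      linarith
    exact lt_of_pow_lt_pow_left₀ 2 (norm_nonneg _) h1
  have hτw : HasDerivAt τ ((1 - ‖w‖ ^ 2 : ℝ) : ℂ)⁻¹ w := by
    have h1 : HasDerivAt (fun z : ℂ => z - w) 1 w := (hasDerivAt_id w).sub_const w
    have h2 : HasDerivAt (fun z : ℂ => 1 - (starRingEnd ℂ) w * z) (-((starRingEnd ℂ) w * 1)) w :=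
      ((hasDerivAt_id w).const_mul _).const_sub 1
    have h3 := h1.div h2 (hden w hw)
    refine h3.congr_deriv ?_
    have e1 : (starRingEnd ℂ) w * w = ((‖w‖ ^ 2 : ℝ) : ℂ) := by
      rw [mul_comm, Complex.mul_conj, Complex.normSq_eq_norm_sq]
    rw [sub_self, zero_mul, sub_zero, e1, one_mul]
    have h4 : (1 - ((‖w‖ ^ 2 : ℝ) : ℂ)) ≠ 0 := by
      rw [← e1]; exact hden w hw
    push_cast at h4 ⊢
    field_simp
  -- the composition
  let k : ℂ → ℂ := fun v => τ (inv φ v)
  have hk0 : k (φ w) = 0 := by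
    simp only [k, τ]; rw [inv_apply hinj hw, sub_self, zero_div]
  have hkd : DifferentiableOn ℂ k (ball (φ w) d) := by
    intro v hv
    have h1 := hsub hv
    have h2 : DifferentiableAt ℂ (inv φ) v := by
      obtain ⟨z, hz, rfl⟩ := h1
      exact (hasDerivAt_inv hφ hinj hz (deriv_ne_zero hφ hinj hz)).differentiableAt
    have h3 : DifferentiableAt ℂ k v := by
      simp only [k, τ]
      exact (h2.sub_const w).div ((h2.const_mul _).const_sub 1) (hden _ (inv_mem h1))
    exact h3.differentiableWithinAt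
  have hkm : MapsTo k (ball (φ w) d) (closedBall (k (φ w)) 1) := by
    intro v hv
    rw [hk0, mem_closedBall_zero_iff]
    exact (hτ _ (inv_mem (hsub hv))).le
  have hS := Complex.norm_deriv_le_div_of_mapsTo_ball hkd hkm hd
  have hkder : HasDerivAt k (((1 - ‖w‖ ^ 2 : ℝ) : ℂ)⁻¹ * (deriv φ w)⁻¹) (φ w) := by
    have h1 := hasDerivAt_inv hφ hinj hw (deriv_ne_zero hφ hinj hw)
    have h2 : HasDerivAt τ ((1 - ‖w‖ ^ 2 : ℝ) : ℂ)⁻¹ (inv φ (φ w)) := by
      rw [inv_apply hinj hw]; exact hτw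
    exact h2.comp (φ w) h1
  rw [hkder.deriv, norm_mul, norm_inv, norm_inv, Complex.norm_real,
    Real.norm_of_nonneg hpos.le] at hS
  have hdp : 0 < ‖deriv φ w‖ := norm_pos_iff.2 (deriv_ne_zero hφ hinj hw)
  rw [← mul_inv, inv_le_comm₀ (by positivity) (by positivity)] at hS
  simpa using hS

end Pool.Agent.Helper36.CN
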